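import Pool.Agent.H8.DE.All

/-!
# Context-free classes: spectra and the class E
-/

set_option autoImplicit false

namespace Pool.Agent.H8.DE

open Pool.Agent.H69.Sp Pool.Agent.H69.Mt Pool.Agent.H8.VR Pool.Agent.H69.VR Pool.Agent.H8.JS

/-- NLC-width -/
theorem e_wm (k m : ℕ) (Ψ : MS) (φ : C2) (h : Ψ.Below m) : lang (specWM k m Ψ φ) ∈ DE := by
  rw [specWM_eq]
  refine d_gr Unit (Fin k) (cwG k m) ?_ m () Ψ φ h
  intro o ho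
  obtain ⟨x, -, rfl⟩ := List.mem_map.1 ho
  rfl

/-- ordered forests -/
theorem e_fm (Ψ : MS) (φ : C2) (h : Ψ.Below 2) : lang (specFM Ψ φ) ∈ DE := by
  rw [specFM_eq Pool.Agent.H1.VR.fr]
  refine d_gr Bool Unit forG ?_ 2 true Ψ φ h
  intro o ho
  simp only [forG, List.mem_cons, List.not_mem_nil, or_false] at ho
  rcases ho with rfl | rfl <;> rfl

/-- nested equivalence relations -/
theorem e_em (k : ℕ) (Ψ : MS) (φ : C2) (h : Ψ.Below k) : lang (specEM k Ψ φ) ∈ DE := by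
  rw [specEM_eq Pool.Agent.H60.VR.pf_NE]
  refine d_gr (Fin (k + 1)) Unit (neG k) ?_ k (Fin.last k) Ψ φ h
  intro o ho
  simp only [neG, List.mem_flatMap, List.mem_map] at ho
  obtain ⟨a, -, b, -, c, -, u, -, rfl⟩ := ho
  rfl

/-- context-free classes: spectra and the class E -/
theorem e_all :
    (∀ (N Q : Type) [Finite N] [Finite Q] (G : Gram N Q),
      (∀ o ∈ G.ops, IsSpectrum o.D ∧ IsSpectrum (posCompl o.D)) →
        ∀ (m : ℕ) (s₀ : N) (Ψ : MS) (φ : C2), Ψ.Below m →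
          IsSpectrum (specM G m s₀ Ψ φ) ∧ IsSpectrum (posCompl (specM G m s₀ Ψ φ))) ∧
    (∀ (N Q : Type) [Finite N] [Finite Q] (G : Gram N Q), (∀ o ∈ G.ops, o.D = {n | 0 < n}) →
        ∀ (m : ℕ) (s₀ : N) (Ψ : MS) (φ : C2), Ψ.Below m → lang (specM G m s₀ Ψ φ) ∈ DE) ∧
    (∀ (k m : ℕ) (Ψ : MS) (φ : C2), Ψ.Below m →
      (IsSpectrum (specWM k m Ψ φ) ∧ IsSpectrum (posCompl (specWM k m Ψ φ))) ∧
        lang (specWM k m Ψ φ) ∈ DE) ∧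
    (∀ (Ψ : MS) (φ : C2), Ψ.Below 2 →
      (IsSpectrum (specFM Ψ φ) ∧ IsSpectrum (posCompl (specFM Ψ φ))) ∧
        lang (specFM Ψ φ) ∈ DE) ∧
    ∀ (k : ℕ) (Ψ : MS) (φ : C2), Ψ.Below k →
      (IsSpectrum (specEM k Ψ φ) ∧ IsSpectrum (posCompl (specEM k Ψ φ))) ∧
        lang (specEM k Ψ φ) ∈ DE :=
  ⟨t_all.1, fun N Q _ _ G hG m s₀ Ψ φ h => d_gr N Q G hG m s₀ Ψ φ h,
    fun k m Ψ φ h => ⟨t_all.2.1 k m Ψ φ h, e_wm k m Ψ φ h⟩,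
    fun Ψ φ h => ⟨t_all.2.2.1 Ψ φ h, e_fm Ψ φ h⟩,
    fun k Ψ φ h => ⟨t_all.2.2.2 k Ψ φ h, e_em k Ψ φ h⟩⟩

end Pool.Agent.H8.DE
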