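import Pool.Agent.H8.DE.Targets

/-!
# The computation of the position
-/

set_option autoImplicit false

namespace Pool.Agent.H8.DE

/-- `n` times the successor -/
def sucs (j : ℕ) : ℕ → P1
  | 0 => .nop
  | n + 1 => .seq (sucs j n) (.suc j)

theorem run_sucs (B j n : ℕ) (σ : Z1) (h : σ.v j + n ≤ B) :
    run B (sucs j n) σ = ⟨Function.update σ.v j (σ.v j + n), σ.tb⟩ := by
  induction n with
  | zero => exact Z1.ext (by simp [sucs, run]) (by simp [sucs, run])
  | succ n ih =>
    have h1 := ih (by omega)
    simp only [sucs, run] at h1 ⊢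
    rw [h1]
    refine Z1.ext (funext fun x => ?_) rfl
    simp only [Function.update_apply]
    split_ifs
    · omega
    · rfl

theorem horner_lt (N : ℕ) (l : List ℕ) (h : ∀ x ∈ l, x < N) :
    l.foldr (fun x c => x + N * c) 0 < N ^ l.length := by
  induction l with
  | nil => simp
  | cons x l ih =>
    have h1 := ih fun y hy => h y (List.mem_cons_of_mem _ hy)
    have h2 := h x List.mem_cons_self
    rw [List.foldr_cons, List.length_cons, pow_succ]
    calc x + N * l.foldr (fun x c => x + N * c) 0 < N * (l.foldr (fun x c => x + N * c) 0 + 1) := by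
          rw [mul_add]
          omega
      _ ≤ N * N ^ l.length := Nat.mul_le_mul_left _ h1
      _ = _ := by ring

theorem horner (hAR : D_AR) (m k : ℕ) (hm : m < k) (xs : List ℕ) (hxs : ∀ x ∈ xs, x < k) :
    ∃ p, ∀ B σ, (∀ x ∈ xs, σ.v x < σ.v m) → (σ.v m) ^ xs.length ≤ B →
      Cal k p B σ ((xs.map σ.v).foldr (fun x c => x + σ.v m * c) 0) := by
  induction xs with
  | nil =>
    refine ⟨.zer k, fun B σ _ _ => ⟨rfl, fun i hi => ?_, ?_⟩⟩
    · simp only [run]
      rw [Function.update_of_ne (by omega)]
    · simp [run]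
  | cons x xs ih =>
    obtain ⟨p, hp⟩ := ih fun y hy => hxs y (List.mem_cons_of_mem _ hy)
    have hx := hxs x List.mem_cons_self
    obtain ⟨p1, hp1⟩ := (hAR (k + 1) m k (by omega) (by omega)).2.1
    obtain ⟨p2, hp2⟩ := (hAR (k + 2) x (k + 1) (by omega) (by omega)).1
    refine ⟨.seq p (.seq p1 (.seq p2 (.cpy k (k + 2)))), fun B σ h hB => ?_⟩
    have hN : 0 < σ.v m := (Nat.zero_le _).trans_lt (h x List.mem_cons_self)
    have hB' : (σ.v m) ^ xs.length ≤ B := by
      refine le_trans ?_ hB
      rw [List.length_cons]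
      exact Nat.pow_le_pow_right hN (by omega)
    obtain ⟨a1, a2, a3⟩ := hp B σ (fun y hy => h y (List.mem_cons_of_mem _ hy)) hB'
    have hl : ∀ y ∈ xs.map σ.v, y < σ.v m := by
      intro y hy
      obtain ⟨z, hz, rfl⟩ := List.mem_map.1 hy
      exact h z (List.mem_cons_of_mem _ hz)
    have hr := horner_lt (σ.v m) (xs.map σ.v) hl
    rw [List.length_map] at hr
    set r := (xs.map σ.v).foldr (fun x c => x + σ.v m * c) 0 with hrd
    have hx' := h x List.mem_cons_self
    have hb : σ.v x + σ.v m * r < (σ.v m) ^ (xs.length + 1) := by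
      rw [pow_succ]
      calc σ.v x + σ.v m * r < σ.v m * (r + 1) := by
            rw [mul_add]
            omega
        _ ≤ σ.v m * (σ.v m) ^ xs.length := Nat.mul_le_mul_left _ hr
        _ = _ := by ring
    rw [List.length_cons] at hB
    have e1 : (run B p σ).v m = σ.v m := a2 m hm
    obtain ⟨b1, b2, b3⟩ := hp1 B (run B p σ) (by rw [e1, a3]; omega)
    rw [e1, a3] at b3
    have e2 : (run B p1 (run B p σ)).v x = σ.v x := by rw [b2 x (by omega), a2 x hx]
    obtain ⟨c1, c2, c3⟩ := hp2 B (run B p1 (run B p σ)) (by rw [e2, b3]; omega)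
    rw [e2, b3] at c3
    refine ⟨?_, fun i hi => ?_, ?_⟩
    · simp only [run]
      rw [c1, b1, a1]
    · simp only [run]
      rw [Function.update_of_ne (by omega), c2 i (by omega), b2 i (by omega), a2 i hi]
    · simp only [run, Function.update_self]
      rw [c3]
      simp [hrd]

theorem pf_CD (hAR : D_AR) : D_CD := by
  intro R i xs m k hi hxs hm
  obtain ⟨p, hp⟩ := horner hAR m k hm xs hxs
  refine ⟨.seq p (.seq (.zer (k + 1)) (.seq (.lp k (sucs (k + 1) R)) (.seq (sucs (k + 1) i)
    (.cpy k (k + 1))))), fun B σ h hB => ?_⟩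
  have hB' : (σ.v m) ^ xs.length ≤ B := by
    refine le_trans ?_ hB
    exact Nat.le_mul_of_pos_left _ (by omega)
  obtain ⟨a1, a2, a3⟩ := hp B σ h hB'
  have hl : ∀ y ∈ xs.map σ.v, y < σ.v m := by
    intro y hy
    obtain ⟨z, hz, rfl⟩ := List.mem_map.1 hy
    exact h z hz
  have hr := horner_lt (σ.v m) (xs.map σ.v) hl
  rw [List.length_map] at hr
  set r := (xs.map σ.v).foldr (fun x c => x + σ.v m * c) 0 with hrd
  have hb : i + R * r < B + 1 := by
    have : R * (r + 1) ≤ R * (σ.v m) ^ xs.length := Nat.mul_le_mul_left _ hr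
    rw [mul_add] at this
    omega
  set σ1 := run B p σ with h1
  have it : ∀ n, R * n ≤ B → (run B (sucs (k + 1) R))^[n]
      ⟨Function.update σ1.v (k + 1) 0, σ1.tb⟩ = ⟨Function.update σ1.v (k + 1) (R * n), σ1.tb⟩ := by
    intro n
    induction n with
    | zero => intro _; simp
    | succ n ih =>
      intro hn
      rw [Function.iterate_succ_apply', ih (by rw [mul_add] at hn; omega),
        run_sucs _ _ _ _ (by simp only [Function.update_self]; rw [mul_add] at hn; omega)]
      refine Z1.ext (funext fun x => ?_) rfl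
      simp only [Function.update_apply]
      split_ifs
      · ring
      · rfl
  have e3 : run B (.seq p (.seq (.zer (k + 1)) (.seq (.lp k (sucs (k + 1) R))
      (.seq (sucs (k + 1) i) (.cpy k (k + 1)))))) σ =
      ⟨Function.update (Function.update σ1.v (k + 1) (R * r + i)) k (R * r + i), σ1.tb⟩ := by
    simp only [run]
    rw [← h1, Function.update_of_ne (show k ≠ k + 1 by omega), a3, it r (by omega),
      run_sucs _ _ _ _ (by simp only [Function.update_self]; omega)]
    simp
  refine ⟨?_, fun j hj => ?_, ?_⟩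
  · rw [e3]
    exact a1
  · rw [e3]
    simp only
    rw [Function.update_of_ne (by omega), Function.update_of_ne (by omega), a2 j hj]
  · rw [e3]
    simp only [Function.update_self, cd]
    rw [← hrd]
    ring

end Pool.Agent.H8.DE
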