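import Pool.Agent.H8.DE.Targets

/-!
# Grammars: the spectra are in E
-/

set_option autoImplicit false

namespace Pool.Agent.H8.DE

open Pool.Agent.H69.Sp Pool.Agent.H69.VR Pool.Agent.H8.VR Pool.Agent.H8.JS Pool.Agent.H8.MC

theorem pf_GR (hSY : D_SY) (hN1 : T_N1) : D_GR := by
  intro N Q _ _ G hD m s₀ Ψ φ hΨ
  rw [specM_eq N Q G m s₀ Ψ hΨ φ]
  have := MS.finT Q (Ψ.clo Ψ.vb)
  obtain ⟨Q', L, T, C, O, _, _, _, _, _, _, S, K, Ok, h1, h2, h3⟩ :=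
    hN1 (Option (N × (Ψ.clo Ψ.vb).T Q)) Q (ext G s₀ (Ψ.clo Ψ.vb)) m none φ
  have h4 : specG (ext G s₀ (Ψ.clo Ψ.vb)) m none φ = {n | 0 < n ∧ SysMem S K none Ok n} :=
    Set.ext h3
  rw [h4]
  refine hSY _ Q' L T O C S K none Ok h1 fun o => ?_
  obtain ⟨o', ho', h5⟩ := h2 o
  rw [h5]
  obtain ⟨x, hx, h6⟩ : ∃ x ∈ G.ops, o'.D = x.D := by
    obtain ⟨x, hx, a, b, -, -, -, -, -, -, k, -⟩ := mem_ops.1 ho'
    exact ⟨x, hx, k⟩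
  rw [h6]
  exact hD x hx

end Pool.Agent.H8.DE
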