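import Pool.Agent.H8.DE.Targets

/-!
# Macros for counters
-/

set_option autoImplicit false

namespace Pool.Agent.H8.DE

theorem ex_cast {p : P0} {σ σ₁ σ' : Z0} {t : ℕ} (h : Ex p σ σ₁ t) (e : σ₁ = σ') : Ex p σ σ' t :=
  e ▸ h

theorem ex_cast' {p : P0} {σ σ₀ σ' : Z0} {t : ℕ} (h : Ex p σ₀ σ' t) (e : σ₀ = σ) : Ex p σ σ' t :=
  e ▸ h

theorem zx {a b : Z0} (h1 : ∀ j, a.n j = b.n j) (h2 : a.h = b.h) (h3 : a.w = b.w) : a = b :=
  Z0.ext (funext h1) h2 h3

/-- a loop with prescribed states -/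
theorem whn_loop (j : ℕ) (b : P0) (S : ℕ → Z0) (N tb : ℕ) (hj : ∀ r ≤ N, (S r).n j = r)
    (hb : ∀ r < N, Ex b (S (r + 1)) (S r) tb) :
    ∀ r ≤ N, Ex (.whn j b) (S r) (S 0) (r * (tb + 1) + 1) := by
  intro r
  induction r with
  | zero =>
    intro _
    rw [zero_mul, zero_add]
    exact Ex.whnf _ _ _ (hj 0 (by omega))
  | succ r ih =>
    intro hr
    have h1 := Ex.whnt j b (S (r + 1)) (S r) (S 0) tb (r * (tb + 1) + 1)
      (by rw [hj _ hr]; omega) (hb r (by omega)) (ih (by omega))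
    have e : tb + (r * (tb + 1) + 1) + 1 = (r + 1) * (tb + 1) + 1 := by ring
    rw [e] at h1
    exact h1

theorem mz_ex (i : ℕ) (σ : Z0) :
    Ex (.whn i (.dec i)) σ ⟨Function.update σ.n i 0, σ.h, σ.w⟩ (σ.n i * 2 + 1) := by
  have h1 := whn_loop i (.dec i) (fun r => ⟨Function.update σ.n i r, σ.h, σ.w⟩) (σ.n i) 1
    (fun r _ => by simp) (fun r _ => ex_cast (Ex.dec i _) (zx (fun x => by
      simp only [Function.update_apply]
      split_ifs <;> omega) rfl rfl)) (σ.n i) le_rfl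
  refine ex_cast' h1 ?_
  simp

/-- copy `j` to `i`, with the auxiliary counter `t` -/
def cpP (i j t : ℕ) : P0 :=
  .seq (.whn i (.dec i)) (.seq (.whn j (.seq (.dec j) (.seq (.inc t) (.inc i))))
    (.whn t (.seq (.dec t) (.inc j))))

theorem mc_ex {i j t : ℕ} (hij : i ≠ j) (hit : i ≠ t) (hjt : j ≠ t) (σ : Z0) (ht : σ.n t = 0) :
    Ex (cpP i j t) σ ⟨Function.update σ.n i (σ.n j), σ.h, σ.w⟩
      (σ.n i * 2 + 1 + ((σ.n j * (3 + 1) + 1) + (σ.n j * (2 + 1) + 1))) := by
  refine Ex.seq _ _ _ _ _ _ _ (mz_ex i σ) (Ex.seq _ _ _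
    ⟨fun x => if x = i then σ.n j else if x = t then σ.n j else if x = j then 0 else σ.n x,
      σ.h, σ.w⟩ _ _ _ ?_ ?_)
  · have h1 := whn_loop j (.seq (.dec j) (.seq (.inc t) (.inc i)))
      (fun r => ⟨fun x => if x = i then σ.n j - r else if x = t then σ.n j - r else if x = j then r
        else σ.n x, σ.h, σ.w⟩) (σ.n j) (1 + (1 + 1)) (fun r _ => by
          simp [hij.symm, hjt]) (fun r hr => Ex.seq _ _ _ _ _ _ _ (Ex.dec j _)
            (Ex.seq _ _ _ _ _ _ _ (Ex.inc t _) (ex_cast (Ex.inc i _) (zx (fun x => by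
              simp only [Function.update_apply]
              split_ifs <;> omega) rfl rfl)))) (σ.n j) le_rfl
    refine ex_cast (ex_cast' h1 (zx (fun x => ?_) rfl rfl)) (zx (fun x => ?_) rfl rfl)
    · simp only [Function.update_apply]
      split_ifs <;> simp_all
    · simp
  · have h1 := whn_loop t (.seq (.dec t) (.inc j))
      (fun r => ⟨fun x => if x = i then σ.n j else if x = t then r else if x = j then σ.n j - r
        else σ.n x, σ.h, σ.w⟩) (σ.n j) (1 + 1) (fun r _ => by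
          simp [hit.symm]) (fun r hr => Ex.seq _ _ _ _ _ _ _ (Ex.dec t _)
            (ex_cast (Ex.inc j _) (zx (fun x => by
              simp only [Function.update_apply]
              split_ifs <;> omega) rfl rfl))) (σ.n j) le_rfl
    refine ex_cast (ex_cast' h1 (zx (fun x => ?_) rfl rfl)) (zx (fun x => ?_) rfl rfl)
    · simp
    · simp only [Function.update_apply]
      split_ifs <;> simp_all

theorem pf_MA : D_MA := by
  refine ⟨fun i => ⟨.whn i (.dec i), fun σ => ⟨_, by omega, mz_ex i σ⟩⟩, fun i j t h1 h2 h3 =>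
    ⟨cpP i j t, fun σ ht => ⟨_, by omega, mc_ex h1 h2 h3 σ ht⟩⟩, ?_, ?_, ?_, ?_⟩
  · intro i b t₁ t₂ t₃ hib hi1 hi2 hi3 hb1 hb2 hb3 h12 h13 h23
    refine ⟨.seq (cpP t₁ i t₃) (.seq (cpP t₂ b t₃) (.seq (.whn t₁ (.seq (.dec t₁) (.dec t₂)))
      (.seq (.ifz t₂ .nop (.inc i)) (.whn t₂ (.dec t₂))))), fun σ z1 z2 z3 hle => ?_⟩
    have e1 := mc_ex hi1.symm h13 hi3 σ z3
    have e2 := mc_ex hb2.symm h23 hb3 ⟨Function.update σ.n t₁ (σ.n i), σ.h, σ.w⟩
      (by simp [Function.update_apply, h13.symm, z3])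
    have e3 := whn_loop t₁ (.seq (.dec t₁) (.dec t₂))
      (fun r => ⟨fun x => if x = t₁ then r else if x = t₂ then σ.n b - (σ.n i - r) else σ.n x,
        σ.h, σ.w⟩) (σ.n i) (1 + 1) (fun r _ => by simp) (fun r hr => Ex.seq _ _ _ _ _ _ _
          (Ex.dec t₁ _) (ex_cast (Ex.dec t₂ _) (zx (fun x => by
            simp only [Function.update_apply]
            split_ifs <;> omega) rfl rfl))) (σ.n i) le_rfl
    have e4 : ∃ T ≤ 2, Ex (.ifz t₂ .nop (.inc i))
        ⟨fun x => if x = t₁ then 0 else if x = t₂ then σ.n b - (σ.n i - 0) else σ.n x, σ.h, σ.w⟩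
        ⟨fun x => if x = t₁ then 0 else if x = t₂ then σ.n b - σ.n i else if x = i then
          min (σ.n i + 1) (σ.n b) else σ.n x, σ.h, σ.w⟩ T := by
      by_cases hc : σ.n b - σ.n i = 0
      · refine ⟨1 + 1, by omega, Ex.ifzt _ _ _ _ _ _ (by simp [h12.symm, hc]) ?_⟩
        refine ex_cast (Ex.nop _) (zx (fun x => ?_) rfl rfl)
        simp only
        split_ifs <;> simp_all <;> omega
      · refine ⟨1 + 1, by omega, Ex.ifzf _ _ _ _ _ _ (by simpa [h12.symm] using hc) ?_⟩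
        refine ex_cast (Ex.inc i _) (zx (fun x => ?_) rfl rfl)
        simp only [Function.update_apply]
        split_ifs <;> simp_all <;> omega
    obtain ⟨T4, hT4, e4⟩ := e4
    have e5 := mz_ex t₂ ⟨fun x => if x = t₁ then 0 else if x = t₂ then σ.n b - σ.n i else
      if x = i then min (σ.n i + 1) (σ.n b) else σ.n x, σ.h, σ.w⟩
    refine ⟨_, ?_, Ex.seq _ _ _ _ _ _ _ e1 (Ex.seq _ _ _ _ _ _ _ e2 (Ex.seq _ _ _ _ _ _ _
      (ex_cast' e3 (zx (fun x => ?_) rfl rfl)) (Ex.seq _ _ _ _ _ _ _ e4 (ex_cast e5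
        (zx (fun x => ?_) rfl rfl)))))⟩
    · simp only [Function.update_apply, if_neg hb1, if_neg h12.symm, if_true, z1, z2]
      omega
    · simp only [Function.update_apply]
      split_ifs <;> simp_all
    · simp only [Function.update_apply]
      split_ifs <;> simp_all
  · intro i j t₁ t₂ t₃ hij hi1 hi2 hi3 hj1 hj2 hj3 h12 h13 h23 p q
    refine ⟨.seq (cpP t₁ i t₃) (.seq (cpP t₂ j t₃) (.seq
      (.whn t₁ (.seq (.dec t₁) (.ifz t₂ (.inc t₃) (.dec t₂))))
      (.ifz t₂ (.ifz t₃ p (.seq (.whn t₃ (.dec t₃)) q)) (.seq (.whn t₂ (.dec t₂)) q)))),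
      fun σ z1 z2 z3 σ' T hT => ?_⟩
    have e1 := mc_ex hi1.symm h13 hi3 σ z3
    have e2 := mc_ex hj2.symm h23 hj3 ⟨Function.update σ.n t₁ (σ.n i), σ.h, σ.w⟩
      (by simp [Function.update_apply, h13.symm, z3])
    have e3 := whn_loop t₁ (.seq (.dec t₁) (.ifz t₂ (.inc t₃) (.dec t₂)))
      (fun r => ⟨fun x => if x = t₁ then r else if x = t₂ then σ.n j - (σ.n i - r) else
        if x = t₃ then (σ.n i - r) - σ.n j else σ.n x, σ.h, σ.w⟩) (σ.n i) (1 + (1 + 1))
      (fun r _ => by simp) (fun r hr => Ex.seq _ _ _ _ _ _ _ (Ex.dec t₁ _) (by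
        by_cases hc : σ.n j - (σ.n i - (r + 1)) = 0
        · refine Ex.ifzt _ _ _ _ _ _ (by simp [Function.update_apply, h12.symm, hc])
            (ex_cast (Ex.inc t₃ _) (zx (fun x => ?_) rfl rfl))
          simp only [Function.update_apply]
          split_ifs <;> omega
        · refine Ex.ifzf _ _ _ _ _ _ (by simpa [Function.update_apply, h12.symm] using hc)
            (ex_cast (Ex.dec t₂ _) (zx (fun x => ?_) rfl rfl))
          simp only [Function.update_apply]
          split_ifs <;> omega)) (σ.n i) le_rfl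
    have e4 : ∃ T' ≤ T + 2 * (σ.n i + σ.n j) + 3,
        Ex (.ifz t₂ (.ifz t₃ p (.seq (.whn t₃ (.dec t₃)) q)) (.seq (.whn t₂ (.dec t₂)) q))
        ⟨fun x => if x = t₁ then 0 else if x = t₂ then σ.n j - (σ.n i - 0) else
          if x = t₃ then (σ.n i - 0) - σ.n j else σ.n x, σ.h, σ.w⟩ σ' T' := by
      by_cases hc : σ.n i = σ.n j
      · rw [if_pos hc] at hT
        refine ⟨T + 1 + 1, by omega, Ex.ifzt _ _ _ _ _ _ (by simp [h12.symm, hc])
          (Ex.ifzt _ _ _ _ _ _ (by simp [h13.symm, h23.symm, hc]) (ex_cast' hT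
            (zx (fun x => ?_) rfl rfl)))⟩
        simp only
        split_ifs <;> simp_all
      · rw [if_neg hc] at hT
        by_cases hd : σ.n j - σ.n i = 0
        · refine ⟨_ + 1 + 1, ?_, Ex.ifzt _ _ _ _ _ _ (by simp [h12.symm, hd])
            (Ex.ifzf _ _ _ _ _ _ (by simp [h13.symm, h23.symm]; omega)
              (Ex.seq _ _ _ _ _ _ _ (mz_ex t₃ _) (ex_cast' hT (zx (fun x => ?_) rfl rfl))))⟩
          · simp [h13.symm, h23.symm]
            omega
          · simp only [Function.update_apply]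
            split_ifs <;> simp_all
        · refine ⟨_ + 1, ?_, Ex.ifzf _ _ _ _ _ _ (by simpa [h12.symm] using hd)
            (Ex.seq _ _ _ _ _ _ _ (mz_ex t₂ _) (ex_cast' hT (zx (fun x => ?_) rfl rfl)))⟩
          · simp [h12.symm]
            omega
          · simp only [Function.update_apply]
            split_ifs <;> simp_all
            omega
    obtain ⟨T4, hT4, e4⟩ := e4
    refine ⟨_, ?_, Ex.seq _ _ _ _ _ _ _ e1 (Ex.seq _ _ _ _ _ _ _ e2 (Ex.seq _ _ _ _ _ _ _
      (ex_cast' e3 (zx (fun x => ?_) rfl rfl)) e4))⟩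
    · simp only [Function.update_apply, if_neg hj1, if_neg h12.symm, z1, z2]
      omega
    · simp only [Function.update_apply]
      split_ifs <;> simp_all
  · intro i t₁ t₂ h1 h2 h12 p q
    refine ⟨.seq (.whn i (.seq (.dec i) (.seq (.inc t₁) .rt))) (.seq (.ifw (.inc t₂) .nop)
      (.seq (.whn t₁ (.seq (.dec t₁) (.seq (.inc i) .lf))) (.ifz t₂ q (.seq (.dec t₂) p)))),
      fun σ hh z1 z2 σ' T hT => ?_⟩
    have e1 := whn_loop i (.seq (.dec i) (.seq (.inc t₁) .rt))
      (fun r => ⟨fun x => if x = i then r else if x = t₁ then σ.n i - r else σ.n x,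
        σ.n i - r, σ.w⟩) (σ.n i) (1 + (1 + 1)) (fun r _ => by simp)
      (fun r hr => Ex.seq _ _ _ _ _ _ _ (Ex.dec i _) (Ex.seq _ _ _ _ _ _ _ (Ex.inc t₁ _)
        (ex_cast (Ex.rt _) (zx (fun x => by
          simp only [Function.update_apply]
          split_ifs <;> omega) (by simp only; omega) rfl)))) (σ.n i) le_rfl
    have e2 : ∀ b : Bool, b = σ.w (σ.n i) → ∃ T ≤ 2, Ex (.ifw (.inc t₂) .nop)
        ⟨fun x => if x = i then 0 else if x = t₁ then σ.n i - 0 else σ.n x, σ.n i - 0, σ.w⟩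
        ⟨fun x => if x = i then σ.n i - σ.n i else if x = t₁ then σ.n i else if x = t₂ then
          (if b = true then 1 else 0) else σ.n x, σ.n i, σ.w⟩ T := by
      intro b hb
      cases b with
      | true =>
        refine ⟨1 + 1, by omega, Ex.ifwt _ _ _ _ _ hb.symm (ex_cast (Ex.inc t₂ _)
          (zx (fun x => ?_) rfl rfl))⟩
        simp only [Function.update_apply]
        split_ifs <;> simp_all
      | false =>
        refine ⟨1 + 1, by omega, Ex.ifwf _ _ _ _ _ hb.symm (ex_cast (Ex.nop _)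
          (zx (fun x => ?_) rfl rfl))⟩
        simp only
        split_ifs <;> simp_all
    have e3 := whn_loop t₁ (.seq (.dec t₁) (.seq (.inc i) .lf))
      (fun r => ⟨fun x => if x = i then σ.n i - r else if x = t₁ then r else if x = t₂ then
        (if σ.w (σ.n i) = true then 1 else 0) else σ.n x, r, σ.w⟩) (σ.n i) (1 + (1 + 1))
      (fun r _ => by simp [h1.symm])
      (fun r hr => Ex.seq _ _ _ _ _ _ _ (Ex.dec t₁ _) (Ex.seq _ _ _ _ _ _ _ (Ex.inc i _)
        (ex_cast (Ex.lf _) (zx (fun x => by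
          simp only [Function.update_apply]
          split_ifs <;> omega) (by simp only; omega) rfl)))) (σ.n i) le_rfl
    obtain ⟨T2, hT2, e2⟩ := e2 _ rfl
    have e4 : ∃ T' ≤ T + 2, Ex (.ifz t₂ q (.seq (.dec t₂) p))
        ⟨fun x => if x = i then σ.n i - 0 else if x = t₁ then 0 else if x = t₂ then
        (if σ.w (σ.n i) = true then 1 else 0) else σ.n x, 0, σ.w⟩ σ' T' := by
      by_cases hc : σ.w (σ.n i) = true
      · rw [if_pos hc] at hT
        refine ⟨1 + T + 1, by omega, Ex.ifzf _ _ _ _ _ _ (by simp [h2.symm, h12.symm, hc])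
          (Ex.seq _ _ _ _ _ _ _ (Ex.dec t₂ _) (ex_cast' hT (zx (fun x => ?_) hh rfl)))⟩
        simp only [Function.update_apply]
        split_ifs <;> simp_all
      · rw [if_neg hc] at hT
        refine ⟨T + 1, by omega, Ex.ifzt _ _ _ _ _ _ (by simp [h2.symm, h12.symm, hc])
          (ex_cast' hT (zx (fun x => ?_) hh rfl))⟩
        simp only
        split_ifs <;> simp_all
    obtain ⟨T4, hT4, e4⟩ := e4
    refine ⟨_, ?_, Ex.seq _ _ _ _ _ _ _ (ex_cast' e1 (zx (fun x => ?_) ?_ rfl))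
      (Ex.seq _ _ _ _ _ _ _ e2 (Ex.seq _ _ _ _ _ _ _ e3 e4))⟩
    · omega
    · simp only
      split_ifs <;> simp_all
    · simp [hh]
  · intro i t₁ t₂ h1 h2 h12
    refine ⟨.seq (.whn i (.seq (.dec i) (.seq (.inc t₁) .rt))) (.seq (.wr true)
      (.whn t₁ (.seq (.dec t₁) (.seq (.inc i) .lf)))), fun σ hh z1 z2 => ?_⟩
    have e1 := whn_loop i (.seq (.dec i) (.seq (.inc t₁) .rt))
      (fun r => ⟨fun x => if x = i then r else if x = t₁ then σ.n i - r else σ.n x,
        σ.n i - r, σ.w⟩) (σ.n i) (1 + (1 + 1)) (fun r _ => by simp)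
      (fun r hr => Ex.seq _ _ _ _ _ _ _ (Ex.dec i _) (Ex.seq _ _ _ _ _ _ _ (Ex.inc t₁ _)
        (ex_cast (Ex.rt _) (zx (fun x => by
          simp only [Function.update_apply]
          split_ifs <;> omega) (by simp only; omega) rfl)))) (σ.n i) le_rfl
    have e3 := whn_loop t₁ (.seq (.dec t₁) (.seq (.inc i) .lf))
      (fun r => ⟨fun x => if x = i then σ.n i - r else if x = t₁ then r else σ.n x, r,
        Function.update σ.w (σ.n i) true⟩) (σ.n i) (1 + (1 + 1))
      (fun r _ => by simp [h1.symm])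
      (fun r hr => Ex.seq _ _ _ _ _ _ _ (Ex.dec t₁ _) (Ex.seq _ _ _ _ _ _ _ (Ex.inc i _)
        (ex_cast (Ex.lf _) (zx (fun x => by
          simp only [Function.update_apply]
          split_ifs <;> omega) (by simp only; omega) rfl)))) (σ.n i) le_rfl
    refine ⟨_, ?_, Ex.seq _ _ _ _ _ _ _ (ex_cast' e1 (zx (fun x => ?_) ?_ rfl))
      (Ex.seq _ _ _ _ _ _ _ (Ex.wr true _) (ex_cast (ex_cast' e3 (zx (fun x => ?_) ?_ ?_))
        (zx (fun x => ?_) hh.symm rfl)))⟩
    · omega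
    · simp only
      split_ifs <;> simp_all
    · simp [hh]
    · simp only
      split_ifs <;> simp_all
    · simp
    · simp
    · simp only
      split_ifs <;> simp_all

end Pool.Agent.H8.DE
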