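import Pool.Agent.H8.DE.Targets
import Pool.Agent.H1.VR.FS

/-!
# The rules of a composition system are definable
-/

set_option autoImplicit false

namespace Pool.Agent.H8.DE

open Pool.Agent.H69.Sp Pool.Agent.H69.Mt Pool.Agent.H8.VR Pool.Agent.H1.VR Classical

section
variable {N Q L T O C : Type} [Finite N] [Finite O] [Fintype Q] [Fintype L] [Fintype T]
  [Fintype C]

theorem ru_F (S : Sg N Q L T O) (K : Cp C) (iO : O → ℕ) (k : ℕ) (e : Enum (Ix Q L T C) k) (s : N) :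
    FV (fun M E (w : Ix Q L T C → ℕ) => Ptc S K s w ∨ ∃ o, S.u o = s ∧
      ∃ a : Ix Q L T C → ℕ, Lt M a ∧ ∃ b : Ix Q L T C → ℕ, Lt M b ∧ ∃ d : Ix Q L T C → ℕ, Lt M d ∧
        (∀ σ, b σ = 0) ∧ JE iO e E o a b d ∧ Fn S o a d w) := by
  refine (fv_Ptc S K s id).or (FV.fe fun o => (FV.const _).and ?_)
  refine FV.ex (P := fun M E (w : Ix Q L T C ⊕ Ix Q L T C → ℕ) =>
    ∃ b : Ix Q L T C → ℕ, Lt M b ∧ ∃ d : Ix Q L T C → ℕ, Lt M d ∧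
      (∀ σ, b σ = 0) ∧ JE iO e E o (fun σ => w (Sum.inr σ)) b d ∧
        Fn S o (fun σ => w (Sum.inr σ)) d (fun σ => w (Sum.inl σ))) ?_
  refine FV.ex (P := fun M E (w : (Ix Q L T C ⊕ Ix Q L T C) ⊕ Ix Q L T C → ℕ) =>
    ∃ d : Ix Q L T C → ℕ, Lt M d ∧
      (∀ σ, w (Sum.inr σ) = 0) ∧ JE iO e E o (fun σ => w (Sum.inl (Sum.inr σ)))
        (fun σ => w (Sum.inr σ)) d ∧
        Fn S o (fun σ => w (Sum.inl (Sum.inr σ))) d (fun σ => w (Sum.inl (Sum.inl σ)))) ?_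
  refine FV.ex (P := fun M E
    (w : ((Ix Q L T C ⊕ Ix Q L T C) ⊕ Ix Q L T C) ⊕ Ix Q L T C → ℕ) =>
      (∀ σ, w (Sum.inl (Sum.inr σ)) = 0) ∧
      JE iO e E o (fun σ => w (Sum.inl (Sum.inl (Sum.inr σ))))
        (fun σ => w (Sum.inl (Sum.inr σ))) (fun σ => w (Sum.inr σ)) ∧
        Fn S o (fun σ => w (Sum.inl (Sum.inl (Sum.inr σ)))) (fun σ => w (Sum.inr σ))
          (fun σ => w (Sum.inl (Sum.inl (Sum.inl σ))))) ?_
  exact (fv_zero _).and ((fv_JE iO e o _ _ _).and (fv_Fn S o _ _ _))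

theorem ru_J (S : Sg N Q L T O) (K : Cp C)
    (hK : ∀ (κ : Type) (x : κ) (u : C), FV (fun _ _ (w : κ → ℕ) => K.cp (w x) = u)) (iN : N → ℕ)
    (iO : O → ℕ) (k : ℕ) (e : Enum (Ix Q L T C) k) (o : O) :
    FV (fun M E (w : ((Unit ⊕ Ix Q L T C) ⊕ Ix Q L T C) ⊕ Ix Q L T C → ℕ) =>
      ((∀ σ, w (Sum.inr σ) = 0) ∧ FE iN e E (S.s o) (fun σ => w (Sum.inl (Sum.inl (Sum.inr σ)))) ∧
        FE iN e E (S.t o) (fun σ => w (Sum.inl (Sum.inr σ))) ∧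
        (0 < tot fun σ => w (Sum.inl (Sum.inl (Sum.inr σ)))) ∧
        (0 < tot fun σ => w (Sum.inl (Sum.inr σ))) ∧
        tot (fun σ => w (Sum.inl (Sum.inl (Sum.inr σ)))) +
          tot (fun σ => w (Sum.inl (Sum.inr σ))) ≤ w (Sum.inl (Sum.inl (Sum.inl ())))) ∨
      ∃ τ, ∃ m : Ix Q L T C × T → ℕ, Lt M m ∧ ∃ a₀ : Ix Q L T C → ℕ, Lt M a₀ ∧
        ∃ b₀ : Ix Q L T C → ℕ, Lt M b₀ ∧ ∃ d₀ : Ix Q L T C → ℕ, Lt M d₀ ∧ JE iO e E o a₀ b₀ d₀ ∧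
        Step S K o τ m a₀ b₀ d₀ (fun σ => w (Sum.inl (Sum.inl (Sum.inr σ))))
          (fun σ => w (Sum.inl (Sum.inr σ))) (fun σ => w (Sum.inr σ))) := by
  refine FV.or ?_ ?_
  · exact (fv_zero _).and ((fv_FE iN e _ _).and ((fv_FE iN e _ _).and
        ((fv_tot0 _).and ((fv_tot0 _).and (fv_totle _ _ _)))))
  · refine FV.fe fun τ => ?_
    refine FV.ex (P := fun M E (w : (((Unit ⊕ Ix Q L T C) ⊕ Ix Q L T C) ⊕ Ix Q L T C) ⊕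
      (Ix Q L T C × T) → ℕ) =>
      ∃ a₀ : Ix Q L T C → ℕ, Lt M a₀ ∧
      ∃ b₀ : Ix Q L T C → ℕ, Lt M b₀ ∧ ∃ d₀ : Ix Q L T C → ℕ, Lt M d₀ ∧ JE iO e E o a₀ b₀ d₀ ∧
      Step S K o τ (fun p => w (Sum.inr p)) a₀ b₀ d₀
        (fun σ => w (Sum.inl (Sum.inl (Sum.inl (Sum.inr σ)))))
        (fun σ => w (Sum.inl (Sum.inl (Sum.inr σ)))) (fun σ => w (Sum.inl (Sum.inr σ)))) ?_
    refine FV.ex (P := fun M E (w : ((((Unit ⊕ Ix Q L T C) ⊕ Ix Q L T C) ⊕ Ix Q L T C) ⊕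
      (Ix Q L T C × T)) ⊕ Ix Q L T C → ℕ) =>
      ∃ b₀ : Ix Q L T C → ℕ, Lt M b₀ ∧ ∃ d₀ : Ix Q L T C → ℕ, Lt M d₀ ∧
      JE iO e E o (fun σ => w (Sum.inr σ)) b₀ d₀ ∧
      Step S K o τ (fun p => w (Sum.inl (Sum.inr p))) (fun σ => w (Sum.inr σ)) b₀ d₀
        (fun σ => w (Sum.inl (Sum.inl (Sum.inl (Sum.inl (Sum.inr σ))))))
        (fun σ => w (Sum.inl (Sum.inl (Sum.inl (Sum.inr σ)))))
        (fun σ => w (Sum.inl (Sum.inl (Sum.inr σ))))) ?_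
    refine FV.ex (P := fun M E (w : (((((Unit ⊕ Ix Q L T C) ⊕ Ix Q L T C) ⊕ Ix Q L T C) ⊕
      (Ix Q L T C × T)) ⊕ Ix Q L T C) ⊕ Ix Q L T C → ℕ) =>
      ∃ d₀ : Ix Q L T C → ℕ, Lt M d₀ ∧
      JE iO e E o (fun σ => w (Sum.inl (Sum.inr σ))) (fun σ => w (Sum.inr σ)) d₀ ∧
      Step S K o τ (fun p => w (Sum.inl (Sum.inl (Sum.inr p))))
        (fun σ => w (Sum.inl (Sum.inr σ))) (fun σ => w (Sum.inr σ)) d₀
        (fun σ => w (Sum.inl (Sum.inl (Sum.inl (Sum.inl (Sum.inl (Sum.inr σ)))))))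
        (fun σ => w (Sum.inl (Sum.inl (Sum.inl (Sum.inl (Sum.inr σ))))))
        (fun σ => w (Sum.inl (Sum.inl (Sum.inl (Sum.inr σ)))))) ?_
    refine FV.ex (P := fun M E (w : ((((((Unit ⊕ Ix Q L T C) ⊕ Ix Q L T C) ⊕ Ix Q L T C) ⊕
      (Ix Q L T C × T)) ⊕ Ix Q L T C) ⊕ Ix Q L T C) ⊕ Ix Q L T C → ℕ) =>
      JE iO e E o (fun σ => w (Sum.inl (Sum.inl (Sum.inr σ))))
        (fun σ => w (Sum.inl (Sum.inr σ))) (fun σ => w (Sum.inr σ)) ∧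
      Step S K o τ (fun p => w (Sum.inl (Sum.inl (Sum.inl (Sum.inr p)))))
        (fun σ => w (Sum.inl (Sum.inl (Sum.inr σ)))) (fun σ => w (Sum.inl (Sum.inr σ)))
        (fun σ => w (Sum.inr σ))
        (fun σ => w (Sum.inl (Sum.inl (Sum.inl (Sum.inl (Sum.inl (Sum.inl (Sum.inr σ))))))))
        (fun σ => w (Sum.inl (Sum.inl (Sum.inl (Sum.inl (Sum.inl (Sum.inr σ)))))))
        (fun σ => w (Sum.inl (Sum.inl (Sum.inl (Sum.inl (Sum.inr σ))))))) ?_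
    exact (fv_JE iO e o _ _ _).and (fv_Step S K (hK _) o τ _ _ _ _ _ _ _)

end

theorem pf_RU : D_RU := by
  intro N Q L T O C _ _ _ _ _ _ S K iN iO k e hK
  have hKv : ∀ (κ : Type) (x : κ) (u : C), FV (fun _ _ (w : κ → ℕ) => K.cp (w x) = u) :=
    fun κ x u im => hK (im x) u
  refine ⟨fun s => (ru_F S K iO k e s fun σ => 1 + e.ix σ).congr fun M E v _ => ?_,
    fun o => (ru_J S K hKv iN iO k e o (Sum.elim (Sum.elim (Sum.elim (fun _ => 0)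
      (fun σ => 1 + e.ix σ)) (fun σ => 1 + (k + e.ix σ))) (fun σ => 1 + (2 * k + e.ix σ)))).congr
      fun M E v _ => ?_⟩
  · constructor
    · rintro (h | ⟨o, h1, a, ha, b, hb, d, hd, h2, h3, h4⟩)
      · exact Or.inl h
      · exact Or.inr ⟨o, h1, a, b, d, ha, hb, hd, h2, h3, h4⟩
    · rintro (h | ⟨o, h1, a, b, d, ha, hb, hd, h2, h3, h4⟩)
      · exact Or.inl h
      · exact Or.inr ⟨o, h1, a, ha, b, hb, d, hd, h2, h3, h4⟩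
  · constructor
    · rintro (h | ⟨τ, m, hm, a, ha, b, hb, d, hd, h2, h3⟩)
      · exact Or.inl h
      · exact Or.inr ⟨τ, m, a, b, d, hm, ha, hb, hd, h2, h3⟩
    · rintro (h | ⟨τ, m, a, b, d, hm, ha, hb, hd, h2, h3⟩)
      · exact Or.inl h
      · exact Or.inr ⟨τ, m, hm, a, ha, b, hb, d, hd, h2, h3⟩

end Pool.Agent.H8.DE
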