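import Pool.Agent.H8.DE.Targets
import Pool.Agent.H19.VR.SY

/-!
# Composition systems are in E
-/

set_option autoImplicit false

namespace Pool.Agent.H8.DE

open Pool.Agent.H69.Sp Pool.Agent.H69.VR Pool.Agent.H8.VR Pool.Agent.H8.JS Pool.Agent.H8.MC
open Pool.Agent.H19.VR (exists_enum ls_length EC FE_EC JE_EC)

section
variable {ι : Type} {k : ℕ} (e : Enum ι k)

theorem ls_get (c : ι → ℕ) (σ : ι) : (ls k e.en c).getD (e.ix σ) 0 = c σ := by
  rw [List.getD_eq_getElem?_getD, List.getElem?_eq_getElem (by rw [ls_length]; exact e.ix_lt σ)]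
  simp [ls, e.en_ix]

theorem vl_one (c : ι → ℕ) (n : ℕ) (σ : ι) : vl (ls k e.en c) n (1 + e.ix σ) = c σ := by
  unfold vl
  rw [if_neg (by omega), Nat.add_sub_cancel_left]
  exact ls_get e c σ

theorem vl_a (a b d : ι → ℕ) (n : ℕ) (σ : ι) :
    vl (ls k e.en a ++ ls k e.en b ++ ls k e.en d) n (1 + e.ix σ) = a σ := by
  have h := e.ix_lt σ
  unfold vl
  rw [if_neg (by omega), Nat.add_sub_cancel_left, List.append_assoc, List.getD_append _ _ _ _
    (by rw [ls_length]; exact h)]
  exact ls_get e a σ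

theorem vl_b (a b d : ι → ℕ) (n : ℕ) (σ : ι) :
    vl (ls k e.en a ++ ls k e.en b ++ ls k e.en d) n (1 + (k + e.ix σ)) = b σ := by
  have h := e.ix_lt σ
  unfold vl
  rw [if_neg (by omega), Nat.add_sub_cancel_left, List.append_assoc, List.getD_append_right _ _ _ _
    (by rw [ls_length]; omega), ls_length, Nat.add_sub_cancel_left, List.getD_append _ _ _ _
    (by rw [ls_length]; exact h)]
  exact ls_get e b σ

theorem vl_d (a b d : ι → ℕ) (n : ℕ) (σ : ι) :
    vl (ls k e.en a ++ ls k e.en b ++ ls k e.en d) n (1 + (2 * k + e.ix σ)) = d σ := by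
  have h := e.ix_lt σ
  unfold vl
  rw [if_neg (by omega), Nat.add_sub_cancel_left, List.getD_append_right _ _ _ _
    (by rw [List.length_append, ls_length, ls_length]; omega), List.length_append, ls_length,
    ls_length, show 2 * k + e.ix σ - (k + k) = e.ix σ by omega]
  exact ls_get e d σ

theorem eq_ls (l : List ℕ) (h : l.length = k) : l = ls k e.en fun σ => l.getD (e.ix σ) 0 := by
  refine List.ext_getElem (by rw [ls_length, h]) fun j h1 h2 => ?_
  have hj : j < k := h ▸ h1
  simp [ls, e.ix_en j hj, h1]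

theorem eq_ls3 (l : List ℕ) (h : l.length = 3 * k) :
    l = ls k e.en (fun σ => l.getD (e.ix σ) 0) ++ ls k e.en (fun σ => l.getD (k + e.ix σ) 0) ++
      ls k e.en fun σ => l.getD (2 * k + e.ix σ) 0 := by
  have h1 : l.take k = ls k e.en fun σ => l.getD (e.ix σ) 0 := by
    refine List.ext_getElem (by rw [ls_length, List.length_take]; omega) fun j h1 h2 => ?_
    rw [List.length_take] at h1
    have hj : j < k := by omega
    simp [ls, e.ix_en j hj, show j < l.length by omega]
  have h2 : (l.drop k).take k = ls k e.en fun σ => l.getD (k + e.ix σ) 0 := by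
    refine List.ext_getElem (by rw [ls_length, List.length_take, List.length_drop]; omega)
      fun j h1 h2 => ?_
    rw [List.length_take] at h1
    have hj : j < k := by omega
    simp [ls, e.ix_en j hj, show k + j < l.length by omega]
  have h3 : (l.drop k).drop k = ls k e.en fun σ => l.getD (2 * k + e.ix σ) 0 := by
    refine List.ext_getElem (by rw [ls_length, List.length_drop, List.length_drop]; omega)
      fun j h1 h2 => ?_
    rw [ls_length] at h2
    simp [ls, e.ix_en j h2, show 2 * k + j < l.length by omega, show k + k + j = 2 * k + j by omega]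
  rw [← h1, ← h2, ← h3, List.append_assoc, List.take_append_drop, List.take_append_drop]

theorem ls_lt {M : ℕ} {c : ι → ℕ} (h : Lt M c) : ∀ x ∈ ls k e.en c, x < M := by
  intro x hx
  unfold ls at hx
  obtain ⟨j, _, rfl⟩ := List.mem_map.1 hx
  exact h _

end

theorem vl_lt (l : List ℕ) (n : ℕ) (h : ∀ x ∈ l, x < n + 1) (x : ℕ) : vl l n x < n + 1 := by
  unfold vl
  split_ifs
  · omega
  · by_cases h1 : x - 1 < l.length
    · rw [List.getD_eq_getElem _ _ h1]
      exact h _ (List.getElem_mem h1)
    · rw [List.getD_eq_default _ _ (by omega)]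
      omega

theorem pf_SY (hDT : D_DT) (hRU : D_RU) (hRC : T_RC) (hRS : T_RS) (hIN : T_IN) (hMM : T_MM)
    (hFA : T_FA) (hTT : T_TT) : D_SY := by
  intro N Q L T O C _ _ _ _ _ _ _ S K s₀ Ok hcp hD
  classical
  rcases isEmpty_or_nonempty (Ix Q L T C) with hI | hI
  · refine hDT 0 (fun _ => 0) (fun _ => .eq 0 0) (.neg (.eq 0 0)) _ fun n hn =>
      ⟨fun _ _ => False, fun E hE i hi => absurd hi (by omega), fun E hE _ => ?_⟩
    constructor
    · intro h
      exact absurd rfl h
    · rintro ⟨_, lam, th, c, _⟩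
      exact (hI.false (c ⟨0, hn⟩, (lam ⟨0, hn⟩, fun _ => K.cp 0))).elim
  · obtain ⟨k, ⟨e⟩⟩ := exists_enum (Ix Q L T C)
    obtain ⟨n1, iN, hiN, hN1⟩ : ∃ (n1 : ℕ) (f : N → ℕ), Function.Injective f ∧ ∀ s, f s < n1 := by
      obtain ⟨n, ⟨f⟩⟩ := Finite.exists_equiv_fin N
      exact ⟨n, fun x => (f x).1, fun a b h => f.injective (Fin.ext h), fun s => (f s).2⟩
    obtain ⟨n2, iO, hiO, hO1⟩ : ∃ (n2 : ℕ) (f : O → ℕ), Function.Injective f ∧ ∀ s, f s < n2 := by
      obtain ⟨n, ⟨f⟩⟩ := Finite.exists_equiv_fin O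
      exact ⟨n, fun x => (f x).1, fun a b h => f.injective (Fin.ext h), fun s => (f s).2⟩
    obtain ⟨ruF, ruJ⟩ := hRU N Q L T O C S K iN iO k e hcp
    choose φF hF using ruF
    choose φJ hJ using ruJ
    obtain ⟨ψ, hψ⟩ := hFA N Q L T C iN k e s₀ Ok
    have hle : ∀ (c : Ix Q L T C → ℕ) (σ : Ix Q L T C), c σ ≤ tot c :=
      (hTT N Q L T O C S K).2.2.2.2
    have hmm := hMM N Q L T O C S K s₀ Ok
    obtain ⟨Φ, hΦF, hΦJ, hΦ0⟩ : ∃ Φ : ℕ → Fm, (∀ s, Φ (2 * iN s) = φF s) ∧
        (∀ o, Φ (2 * iO o + 1) = φJ o) ∧ ∀ i, (¬ ∃ s, i = 2 * iN s) → (¬ ∃ o, i = 2 * iO o + 1) →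
          Φ i = .neg (.eq 0 0) := by
      refine ⟨fun i => if h : ∃ s, i = 2 * iN s then φF h.choose else
        if h : ∃ o, i = 2 * iO o + 1 then φJ h.choose else .neg (.eq 0 0), fun s => ?_,
        fun o => ?_, fun i h1 h2 => ?_⟩
      · have h : ∃ s', 2 * iN s = 2 * iN s' := ⟨s, rfl⟩
        simp only [dif_pos h]
        have h1 := h.choose_spec
        have h2 : h.choose = s := hiN (by omega)
        rw [h2]
      · have h' : ¬ ∃ s', 2 * iO o + 1 = 2 * iN s' := by
          rintro ⟨s', h⟩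
          omega
        have h : ∃ o', 2 * iO o + 1 = 2 * iO o' + 1 := ⟨o, rfl⟩
        simp only [dif_neg h', dif_pos h]
        have h1 := h.choose_spec
        have h2 : h.choose = o := hiO (by omega)
        rw [h2]
      · simp only [dif_neg h1, dif_neg h2]
    refine hDT (2 * n1 + 2 * n2 + 2) (fun i => if i % 2 = 0 then k else 3 * k) Φ ψ _ fun n hn =>
      ⟨EC e iN iO (RF S K) (RJ S K), ?_, ?_⟩
    · intro E hE i hi l hl hlt hSt
      have hv := vl_lt l n hlt
      have rc := hRC N Q L T O C S K (n + 1) n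
      have hJE : ∀ o a b d, JE iO e E o a b d → RJ S K o a b d := by
        intro o a b d h
        have h1 : JE iO e (EC e iN iO (RF S K) (RJ S K)) o a b d := hE _ _ h
        rwa [JE_EC e iN hiO] at h1
      have hFE : ∀ s c, FE iN e E s c → RF S K s c := by
        intro s c h
        have h1 : FE iN e (EC e iN iO (RF S K) (RJ S K)) s c := hE _ _ h
        rwa [FE_EC e hiN] at h1
      by_cases h1 : ∃ s, i = 2 * iN s
      · obtain ⟨s, rfl⟩ := h1
        have hl' : l.length = k := by rw [hl, if_pos (by omega)]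
        have hv1 : ∀ σ, vl l n (1 + e.ix σ) = l.getD (e.ix σ) 0 := by
          intro σ
          unfold vl
          rw [if_neg (by omega), Nat.add_sub_cancel_left]
        rw [hΦF] at hSt
        have h2 := (hF s (n + 1) E (fun _ _ => False) (vl l n) hv).2 hSt
        simp only [hv1] at h2
        have hLt : Lt (n + 1) (fun σ => l.getD (e.ix σ) 0) := fun σ => by
          show l.getD (e.ix σ) 0 < n + 1
          rw [← hv1 σ]
          exact hv _
        refine Or.inl ⟨s, _, rfl, eq_ls e l hl', ?_⟩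
        rcases h2 with h2 | ⟨o, rfl, a, b, d, ha, hb, hd, hb0, hJ', hFn⟩
        · exact rc.1 s _ hLt h2
        · exact rc.2.2.2 o a b d _ ha hb hd hLt hb0 (hJE _ _ _ _ hJ') hFn
      · by_cases h2 : ∃ o, i = 2 * iO o + 1
        · obtain ⟨o, rfl⟩ := h2
          have hl' : l.length = 3 * k := by rw [hl, if_neg (by omega)]
          have hv1 : ∀ y, vl l n (1 + y) = l.getD y 0 := by
            intro y
            unfold vl
            rw [if_neg (by omega), Nat.add_sub_cancel_left]
          have hv0 : vl l n 0 = n := rfl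
          rw [hΦJ] at hSt
          have h3 := (hJ o (n + 1) E (fun _ _ => False) (vl l n) hv).2 hSt
          simp only [hv1, hv0] at h3
          have hLt : ∀ y, l.getD y 0 < n + 1 := fun y => by
            rw [← hv1 y]
            exact hv _
          refine Or.inr ⟨o, _, _, _, rfl, eq_ls3 e l hl', ?_⟩
          rcases h3 with ⟨hd0, hFa, hFb, ha0, hb0, hab⟩ | ⟨τ, m, a, b, d, hm, ha, hb, hd, hJ', hst⟩
          · rcases rc.2.1 o _ _ _ (fun σ => hLt _) (fun σ => hLt _) (fun σ => hLt _) hd0
              (hFE _ _ hFa) (hFE _ _ hFb) ha0 hb0 hab with h4 | h4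
            · rw [hD] at h4
              exact absurd (show 0 < Nat.pair _ _ from Pool.Agent.H19.VR.pair_pos ha0) h4
            · exact h4
          · exact rc.2.2.1 o τ m a b d _ _ _ hm ha hb hd (fun σ => hLt _) (fun σ => hLt _)
              (fun σ => hLt _) (hJE _ _ _ _ hJ') hst
        · rw [hΦ0 i h1 h2] at hSt
          exact absurd rfl hSt
    · intro E hE hcl
      have hFE : ∀ s c, FE iN e E s c → RF S K s c := by
        intro s c h
        have h1 : FE iN e (EC e iN iO (RF S K) (RJ S K)) s c := hE _ _ h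
        rwa [FE_EC e hiN] at h1
      have h1 := hψ (n + 1) E (fun _ _ => False) (vl [] n) (vl_lt [] n (by simp))
      refine h1.symm.trans ?_
      constructor
      · rintro ⟨c, hc1, hc2, hc3, hc4⟩
        exact ⟨hn, (hmm n).2 ⟨c, hFE _ _ hc2, hc3, hc4⟩⟩
      · rintro ⟨_, h⟩
        obtain ⟨c, hc1, hc2, hc3⟩ := (hmm n).1 h
        have hLt : Lt (n + 1) c := fun σ => by
          have := hle c σ
          omega
        refine ⟨c, hLt, ?_, hc2, hc3⟩
        refine hIN N Q L T O C S K (n + 1) n (fun o x y => Nat.pair x y ∈ S.D o)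
          (fun _ _ _ => False) (FE iN e E) (fun s c => RF S K s c ∧ tot c ≤ n) (JE iO e E)
          (fun o a b d => RJ S K o a b d ∧ tot a + tot b + tot d ≤ n) (fun _ _ _ _ _ _ _ => id)
          (hRS N Q L T O C S K (n + 1) n (by omega)) ?_ s₀ c hLt ⟨hc1, hc2.le⟩
        have clF : ∀ s c, Lt (n + 1) c → (Ptc S K s c ∨ ∃ o, S.u o = s ∧
            ∃ a b d : Ix Q L T C → ℕ, Lt (n + 1) a ∧ Lt (n + 1) b ∧ Lt (n + 1) d ∧ (∀ σ, b σ = 0) ∧
              JE iO e E o a b d ∧ Fn S o a d c) → FE iN e E s c := by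
          intro s c hc hP
          have hlt := ls_lt e hc
          refine hcl (2 * iN s) (by have := hN1 s; omega) (ls k e.en c)
            (by rw [ls_length, if_pos (by omega)]) hlt ?_
          rw [hΦF]
          refine (hF s (n + 1) E (fun _ _ => False) _ (vl_lt _ n hlt)).1 ?_
          simp only [vl_one]
          exact hP
        have clJ : ∀ o a b d, Lt (n + 1) a → Lt (n + 1) b → Lt (n + 1) d →
            (((∀ σ, d σ = 0) ∧ FE iN e E (S.s o) a ∧ FE iN e E (S.t o) b ∧ 0 < tot a ∧ 0 < tot b ∧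
              tot a + tot b ≤ n) ∨ ∃ τ, ∃ (m : Ix Q L T C × T → ℕ) (a' b' d' : Ix Q L T C → ℕ),
                Lt (n + 1) m ∧ Lt (n + 1) a' ∧ Lt (n + 1) b' ∧ Lt (n + 1) d' ∧
                JE iO e E o a' b' d' ∧ Step S K o τ m a' b' d' a b d) → JE iO e E o a b d := by
          intro o a b d ha hb hd hP
          have hlt : ∀ x ∈ ls k e.en a ++ ls k e.en b ++ ls k e.en d, x < n + 1 := by
            intro x hx
            rw [List.mem_append, List.mem_append] at hx
            rcases hx with (hx | hx) | hx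
            · exact ls_lt e ha x hx
            · exact ls_lt e hb x hx
            · exact ls_lt e hd x hx
          refine hcl (2 * iO o + 1) (by have := hO1 o; omega) _ (by
            rw [List.length_append, List.length_append, ls_length, ls_length, ls_length,
              if_neg (by omega)]
            ring) hlt ?_
          rw [hΦJ]
          refine (hJ o (n + 1) E (fun _ _ => False) _ (vl_lt _ n hlt)).1 ?_
          simp only [vl_a, vl_b, vl_d]
          exact hP
        refine ⟨fun s c hc hP => clF s c hc (Or.inl hP), ?_, ?_, ?_⟩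
        · intro o a b d ha hb hd hd0 hFa hFb ha0 hb0 hab
          exact Or.inr (clJ o a b d ha hb hd (Or.inl ⟨hd0, hFa, hFb, ha0, hb0, hab⟩))
        · intro o τ m a b d a' b' d' hm ha hb hd ha' hb' hd' hJ' hst
          exact clJ o a' b' d' ha' hb' hd' (Or.inr ⟨τ, m, a, b, d, hm, ha, hb, hd, hJ', hst⟩)
        · intro o a b d c ha hb hd hc hb0 hJ' hFn
          exact clF _ c hc (Or.inr ⟨o, rfl, a, b, d, ha, hb, hd, hb0, hJ', hFn⟩)

end Pool.Agent.H8.DE
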