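import Pool.Agent.H8.DE.C1
import Pool.Agent.H8.DE.CD
import Pool.Agent.H8.DE.GR
import Pool.Agent.H8.DE.MA
import Pool.Agent.H8.DE.RU
import Pool.Agent.H8.DE.SY
import Pool.Agent.H9.DE.CM
import Pool.Agent.H40.DE.P0
import Pool.Agent.H40.DE.TM
import Pool.Agent.H46.DE.MC
import Pool.Agent.H46.DE.SK
import Pool.Agent.H56.DE.PS
import Pool.Agent.H60.DE.AR
import Pool.Agent.H69.DE.CL
import Pool.Agent.H69.DE.E1
import Pool.Agent.H75.DE.DT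
import Pool.Agent.H75.DE.EV
import Pool.Agent.H86.DE.PW
import Pool.Agent.H93.DE.TL
import Pool.Agent.H99.DE.CI
import Pool.Agent.H99.DE.FX
import Pool.Agent.H8.JS.All
import Pool.Agent.H8.VR.All

/-!
# Spectra in E: everything
-/

set_option autoImplicit false

namespace Pool.Agent.H8.DE

open Pool.Agent Pool.Agent.H8.VR

theorem d_ar : D_AR := H60.DE.pf_AR
theorem d_cd : D_CD := pf_CD d_ar
theorem d_ev : D_EV := H75.DE.pf_EV d_ar d_cd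
theorem d_tm : D_TM := H40.DE.pf_TM
theorem d_cm : D_CM := H9.DE.pf_CM
theorem d_mc : D_MC := H46.DE.pf_MC d_cm
theorem d_p0 : D_P0 := H40.DE.pf_P0 d_tm d_cm d_mc H8.JS.j_ct H1.JS.pf_t3 H8.JS.j_nu
theorem d_c1 : D_C1 := pf_C1 pf_MA
theorem d_e1 : D_E1 := H69.DE.pf_E1 d_p0 d_c1 H86.DE.pf_PW
theorem d_ps : D_PS := H56.DE.pf_PS d_ev d_cd H93.DE.pf_TL
theorem d_fx : D_FX := H99.DE.pf_FX H99.DE.pf_CI
theorem d_dt : D_DT := H75.DE.pf_DT d_e1 d_ps d_fx d_ev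
theorem d_sy : D_SY :=
  pf_SY d_dt pf_RU (H33.VR.pf_RC H65.VR.pf_GM H53.VR.t_CM H49.VR.pf_FB pf_tt)
    (H33.VR.pf_RS pf_tt) (H33.VR.pf_IN pf_tt) (H74.VR.pf_MM H65.VR.pf_GM H53.VR.t_CM pf_tt)
    H34.VR.pf_FA pf_tt
theorem d_gr : D_GR := pf_GR d_sy t_n1
theorem d_cl : D_CL := H69.DE.pf_CL d_gr
theorem d_sk : D_SK := H46.DE.pf_SK d_gr H1.VR.fr H60.VR.pf_NE

end Pool.Agent.H8.DE
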