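import Pool.Agent.H8.DE.Targets

/-!
# Compilation of the programs with bounded variables
-/

set_option autoImplicit false

namespace Pool.Agent.H8.DE

theorem z0_ext {a b : Z0} (h1 : ∀ j, a.n j = b.n j) (h2 : a.h = b.h) (h3 : a.w = b.w) : a = b :=
  Z0.ext (funext h1) h2 h3

section
variable {k B : ℕ} {L : ℕ → ℕ} {σ : Z1}

theorem en_lt {i : ℕ} (h : i < k) : (en k B L σ).n i = σ.v i := by simp [en, h]

theorem en_k : (en k B L σ).n k = B := by simp [en]

theorem en_t {i : ℕ} (h1 : k < i) (h2 : i < k + 4) : (en k B L σ).n i = 0 := by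
  simp [en, show ¬ i < k by omega, show i ≠ k by omega, h2]

theorem en_L (d : ℕ) : (en k B L σ).n (k + 4 + d) = L d := by
  simp [en, show ¬ k + 4 + d < k by omega, show k + 4 + d ≠ k by omega]

theorem en_upd {i : ℕ} (h : i < k) (x : ℕ) :
    en k B L ⟨Function.update σ.v i x, σ.tb⟩ =
      ⟨Function.update (en k B L σ).n i x, (en k B L σ).h, (en k B L σ).w⟩ := by
  refine z0_ext (fun j => ?_) rfl rfl
  by_cases hj : j = i
  · subst hj
    simp [en, h]
  · simp only [en, Function.update_of_ne hj]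

theorem en_updL (d x : ℕ) :
    en k B (Function.update L d x) σ =
      ⟨Function.update (en k B L σ).n (k + 4 + d) x, (en k B L σ).h, (en k B L σ).w⟩ := by
  refine z0_ext (fun j => ?_) rfl rfl
  by_cases hj : j = k + 4 + d
  · subst hj
    rw [en_L, Function.update_self]
    simp
  · show _ = Function.update (en k B L σ).n (k + 4 + d) x j
    rw [Function.update_of_ne hj]
    simp only [en]
    by_cases h1 : j < k
    · simp [h1]
    · by_cases h2 : j = k
      · simp [h2]
      · by_cases h3 : j < k + 4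
        · simp [h1, h2, h3]
        · simp [h1, h2, h3, show j - (k + 4) ≠ d by omega]

end

theorem pw_le (C B : ℕ) {D D' : ℕ} (h : D ≤ D') : C * (B + 1) ^ D ≤ C * (B + 1) ^ D' :=
  Nat.mul_le_mul_left _ (Nat.pow_le_pow_right (by omega) h)

theorem pw_one (B : ℕ) {D : ℕ} (h : 1 ≤ D) : B + 1 ≤ (B + 1) ^ D := Nat.le_self_pow (by omega) _

theorem pf_C1 (hMA : D_MA) : D_C1 := by
  obtain ⟨mz, mc, ms, me, mg, mp⟩ := hMA
  intro k p
  induction p with
  | nop =>
    intro _ d
    exact ⟨.nop, 1, 0, fun B L σ h _ => ⟨h, 1, by simp, Ex.nop _⟩⟩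
  | zer i =>
    intro hi d
    obtain ⟨q, hq⟩ := mz i
    refine ⟨q, 4, 1, fun B L σ h _ => ⟨fun j hj => ?_, ?_⟩⟩
    · by_cases hji : j = i
      · subst hji
        simp [run]
      · simp only [run, Function.update_of_ne hji]
        exact h j hj
    · obtain ⟨T, hT, h1⟩ := hq (en k B L σ)
      rw [en_lt hi] at hT
      refine ⟨T, ?_, ?_⟩
      · have := h i hi
        rw [pow_one]
        omega
      · simp only [run]
        rw [en_upd hi]
        exact h1
  | suc i =>
    intro hi d
    obtain ⟨q, hq⟩ := ms i k (k + 1) (k + 2) (k + 3) (by have : i < k := hi; omega)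
      (by have : i < k := hi; omega) (by have : i < k := hi; omega) (by have : i < k := hi; omega)
      (by omega) (by omega) (by omega) (by omega) (by omega) (by omega)
    refine ⟨q, 200, 1, fun B L σ h _ => ⟨fun j hj => ?_, ?_⟩⟩
    · by_cases hji : j = i
      · subst hji
        simp [run]
      · simp only [run, Function.update_of_ne hji]
        exact h j hj
    · obtain ⟨T, hT, h1⟩ := hq (en k B L σ) (en_t (by omega) (by omega)) (en_t (by omega) (by omega))
        (en_t (by omega) (by omega)) (by rw [en_lt hi, en_k]; exact h i hi)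
      rw [en_k] at hT
      rw [en_lt hi, en_k] at h1
      refine ⟨T, by rw [pow_one]; exact hT, ?_⟩
      simp only [run]
      rw [en_upd hi]
      exact h1
  | cpy i j =>
    intro hij d
    obtain ⟨hi, hj⟩ : i < k ∧ j < k := hij
    by_cases he : i = j
    · subst he
      refine ⟨.nop, 1, 0, fun B L σ h _ => ?_⟩
      have e : run B (.cpy i i) σ = σ := by
        refine Z1.ext ?_ rfl
        simp [run]
      rw [e]
      exact ⟨h, 1, by simp, Ex.nop _⟩
    · obtain ⟨q, hq⟩ := mc i j (k + 1) he (by omega) (by omega)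
      refine ⟨q, 40, 1, fun B L σ h _ => ⟨fun j' hj' => ?_, ?_⟩⟩
      · by_cases hji : j' = i
        · subst hji
          simp only [run, Function.update_self]
          exact h j hj
        · simp only [run, Function.update_of_ne hji]
          exact h j' hj'
      · obtain ⟨T, hT, h1⟩ := hq (en k B L σ) (en_t (by omega) (by omega))
        rw [en_lt hi, en_lt hj] at hT
        rw [en_lt hj] at h1
        refine ⟨T, ?_, ?_⟩
        · have := h i hi
          have := h j hj
          rw [pow_one]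
          omega
        · simp only [run]
          rw [en_upd hi]
          exact h1
  | put i =>
    intro hi d
    have hi' : i < k := hi
    obtain ⟨q, hq⟩ := mp i (k + 1) (k + 2) (by omega) (by omega) (by omega)
    refine ⟨q, 200, 1, fun B L σ h _ => ⟨h, ?_⟩⟩
    obtain ⟨T, hT, h1⟩ := hq (en k B L σ) rfl (en_t (by omega) (by omega))
      (en_t (by omega) (by omega))
    rw [en_lt hi] at hT h1
    refine ⟨T, ?_, h1⟩
    have := h i hi
    rw [pow_one]
    omega
  | get i p q ihp ihq =>
    intro hi d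
    obtain ⟨hi, hp, hq⟩ : i < k ∧ p.Below k ∧ q.Below k := hi
    obtain ⟨p', Cp, Dp, hp'⟩ := ihp hp d
    obtain ⟨q', Cq, Dq, hq'⟩ := ihq hq d
    obtain ⟨r, hr⟩ := mg i (k + 1) (k + 2) (by omega) (by omega) (by omega) p' q'
    refine ⟨r, Cp + Cq + 200, Dp + Dq + 1, fun B L σ h hL => ?_⟩
    obtain ⟨bp, tp, htp, exp⟩ := hp' B L σ h hL
    obtain ⟨bq, tq, htq, exq⟩ := hq' B L σ h hL
    have h1 := pw_le Cp B (show Dp ≤ Dp + Dq + 1 by omega)
    have h2 := pw_le Cq B (show Dq ≤ Dp + Dq + 1 by omega)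
    have h3 := pw_one B (show 1 ≤ Dp + Dq + 1 by omega)
    have h4 := h i hi
    have h5 := hr (en k B L σ) rfl (en_t (by omega) (by omega)) (en_t (by omega) (by omega))
    rw [en_lt hi] at h5
    by_cases hc : σ.tb (σ.v i) = true
    · have e : run B (.get i p q) σ = run B p σ := by simp [run, hc]
      rw [e]
      refine ⟨bp, ?_⟩
      obtain ⟨T', hT', ex'⟩ := h5 (en k B L (run B p σ)) tp (by
        rw [if_pos (show (en k B L σ).w (σ.v i) = true from hc)]
        exact exp)
      refine ⟨T', ?_, ex'⟩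
      calc T' ≤ tp + 200 * (σ.v i + 1) := hT'
        _ ≤ Cp * (B + 1) ^ (Dp + Dq + 1) + Cq * (B + 1) ^ (Dp + Dq + 1) +
            200 * (B + 1) ^ (Dp + Dq + 1) := by omega
        _ = _ := by ring
    · have e : run B (.get i p q) σ = run B q σ := by simp [run, hc]
      rw [e]
      refine ⟨bq, ?_⟩
      obtain ⟨T', hT', ex'⟩ := h5 (en k B L (run B q σ)) tq (by
        rw [if_neg (show ¬ (en k B L σ).w (σ.v i) = true from hc)]
        exact exq)
      refine ⟨T', ?_, ex'⟩
      calc T' ≤ tq + 200 * (σ.v i + 1) := hT'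
        _ ≤ Cp * (B + 1) ^ (Dp + Dq + 1) + Cq * (B + 1) ^ (Dp + Dq + 1) +
            200 * (B + 1) ^ (Dp + Dq + 1) := by omega
        _ = _ := by ring
  | ife i j p q ihp ihq =>
    intro hi d
    obtain ⟨hi, hj, hp, hq⟩ : i < k ∧ j < k ∧ p.Below k ∧ q.Below k := hi
    obtain ⟨p', Cp, Dp, hp'⟩ := ihp hp d
    obtain ⟨q', Cq, Dq, hq'⟩ := ihq hq d
    by_cases he : i = j
    · subst he
      refine ⟨p', Cp, Dp, fun B L σ h hL => ?_⟩
      have e : run B (.ife i i p q) σ = run B p σ := by simp [run]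
      rw [e]
      exact hp' B L σ h hL
    · obtain ⟨r, hr⟩ := me i j (k + 1) (k + 2) (k + 3) he (by omega) (by omega) (by omega) (by omega)
        (by omega) (by omega) (by omega) (by omega) (by omega) p' q'
      refine ⟨r, Cp + Cq + 400, Dp + Dq + 1, fun B L σ h hL => ?_⟩
      obtain ⟨bp, tp, htp, exp⟩ := hp' B L σ h hL
      obtain ⟨bq, tq, htq, exq⟩ := hq' B L σ h hL
      have h1 := pw_le Cp B (show Dp ≤ Dp + Dq + 1 by omega)
      have h2 := pw_le Cq B (show Dq ≤ Dp + Dq + 1 by omega)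
      have h3 := pw_one B (show 1 ≤ Dp + Dq + 1 by omega)
      have h4 := h i hi
      have h4' := h j hj
      have h5 := hr (en k B L σ) (en_t (by omega) (by omega)) (en_t (by omega) (by omega))
        (en_t (by omega) (by omega))
      rw [en_lt hi, en_lt hj] at h5
      by_cases hc : σ.v i = σ.v j
      · have e : run B (.ife i j p q) σ = run B p σ := by simp [run, hc]
        rw [e]
        refine ⟨bp, ?_⟩
        obtain ⟨T', hT', ex'⟩ := h5 (en k B L (run B p σ)) tp (by rw [if_pos hc]; exact exp)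
        refine ⟨T', ?_, ex'⟩
        calc T' ≤ tp + 200 * (σ.v i + σ.v j + 1) := hT'
          _ ≤ Cp * (B + 1) ^ (Dp + Dq + 1) + Cq * (B + 1) ^ (Dp + Dq + 1) +
              400 * (B + 1) ^ (Dp + Dq + 1) := by omega
          _ = _ := by ring
      · have e : run B (.ife i j p q) σ = run B q σ := by simp [run, hc]
        rw [e]
        refine ⟨bq, ?_⟩
        obtain ⟨T', hT', ex'⟩ := h5 (en k B L (run B q σ)) tq (by rw [if_neg hc]; exact exq)
        refine ⟨T', ?_, ex'⟩
        calc T' ≤ tq + 200 * (σ.v i + σ.v j + 1) := hT'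
          _ ≤ Cp * (B + 1) ^ (Dp + Dq + 1) + Cq * (B + 1) ^ (Dp + Dq + 1) +
              400 * (B + 1) ^ (Dp + Dq + 1) := by omega
          _ = _ := by ring
  | seq p q ihp ihq =>
    intro hpq d
    obtain ⟨hp, hq⟩ : p.Below k ∧ q.Below k := hpq
    obtain ⟨p', Cp, Dp, hp'⟩ := ihp hp d
    obtain ⟨q', Cq, Dq, hq'⟩ := ihq hq d
    refine ⟨.seq p' q', Cp + Cq, Dp + Dq, fun B L σ h hL => ?_⟩
    obtain ⟨bp, tp, htp, exp⟩ := hp' B L σ h hL
    obtain ⟨bq, tq, htq, exq⟩ := hq' B L (run B p σ) bp hL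
    have h1 := pw_le Cp B (show Dp ≤ Dp + Dq by omega)
    have h2 := pw_le Cq B (show Dq ≤ Dp + Dq by omega)
    refine ⟨bq, tp + tq, ?_, Ex.seq _ _ _ _ _ _ _ exp exq⟩
    rw [add_mul]
    omega
  | lp i p ihp =>
    intro hi d
    obtain ⟨hi, hp⟩ : i < k ∧ p.Below k := hi
    obtain ⟨p', Cp, Dp, hp'⟩ := ihp hp (d + 1)
    obtain ⟨q, hq⟩ := mc (k + 4 + d) i (k + 1) (by omega) (by omega) (by omega)
    have key : ∀ (B : ℕ) (L : ℕ → ℕ), (∀ j, d ≤ j → L j = 0) → ∀ (r : ℕ) (σ : Z1),
        (∀ i < k, σ.v i ≤ B) → (∀ i < k, ((run B p)^[r] σ).v i ≤ B) ∧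
          ∃ t ≤ r * (Cp * (B + 1) ^ Dp + 2) + 1,
            Ex (.whn (k + 4 + d) (.seq (.dec (k + 4 + d)) p')) (en k B (Function.update L d r) σ)
              (en k B (Function.update L d 0) ((run B p)^[r] σ)) t := by
      intro B L hL r
      induction r with
      | zero =>
        intro σ h
        exact ⟨h, 1, by omega, Ex.whnf _ _ _ (by rw [en_L]; simp)⟩
      | succ r ih =>
        intro σ h
        obtain ⟨b1, t1, ht1, ex1⟩ := hp' B (Function.update L d r) σ h (fun j hj => by
          rw [Function.update_of_ne (by omega)]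
          exact hL j (by omega))
        obtain ⟨b2, t2, ht2, ex2⟩ := ih (run B p σ) b1
        refine ⟨b2, 1 + t1 + t2 + 1, ?_, ?_⟩
        · rw [add_mul, one_mul]
          omega
        · refine Ex.whnt _ _ _ (en k B (Function.update L d r) (run B p σ)) _ _ _ ?_ ?_ ex2
          · rw [en_L]
            simp
          · refine Ex.seq _ _ _ (en k B (Function.update L d r) σ) _ _ _ ?_ ex1
            have e : en k B (Function.update L d r) σ =
                ⟨Function.update (en k B (Function.update L d (r + 1)) σ).n (k + 4 + d)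
                  ((en k B (Function.update L d (r + 1)) σ).n (k + 4 + d) - 1),
                  (en k B (Function.update L d (r + 1)) σ).h,
                  (en k B (Function.update L d (r + 1)) σ).w⟩ := by
              rw [← en_updL, en_L]
              simp
            rw [e]
            exact Ex.dec _ _
    refine ⟨.seq q (.whn (k + 4 + d) (.seq (.dec (k + 4 + d)) p')), Cp + 30, Dp + 1,
      fun B L σ h hL => ?_⟩
    obtain ⟨T, hT, ex1⟩ := hq (en k B L σ) (en_t (by omega) (by omega))
    rw [en_L, en_lt hi, hL d le_rfl] at hT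
    rw [en_lt hi, ← en_updL] at ex1
    obtain ⟨b2, t2, ht2, ex2⟩ := key B L hL (σ.v i) σ h
    have e : Function.update L d 0 = L := by
      rw [← hL d le_rfl]
      simp
    rw [e] at ex2
    refine ⟨b2, T + t2, ?_, Ex.seq _ _ _ _ _ _ _ ex1 ex2⟩
    have h1 := h i hi
    have h2 : σ.v i * (Cp * (B + 1) ^ Dp + 2) ≤ B * (Cp * (B + 1) ^ Dp + 2) :=
      Nat.mul_le_mul_right _ h1
    have h3 := pw_one B (show 1 ≤ Dp + 1 by omega)
    have h4 : B * (Cp * (B + 1) ^ Dp) ≤ Cp * (B + 1) ^ (Dp + 1) := by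
      rw [pow_succ]
      calc B * (Cp * (B + 1) ^ Dp) ≤ (B + 1) * (Cp * (B + 1) ^ Dp) :=
            Nat.mul_le_mul_right _ (by omega)
        _ = _ := by ring
    have h5 : B * (Cp * (B + 1) ^ Dp + 2) = B * (Cp * (B + 1) ^ Dp) + 2 * B := by ring
    calc T + t2 ≤ 20 * (0 + σ.v i + 1) + (B * (Cp * (B + 1) ^ Dp + 2) + 1) := by omega
      _ = 20 * (0 + σ.v i + 1) + (B * (Cp * (B + 1) ^ Dp) + 2 * B + 1) := by rw [h5]
      _ ≤ Cp * (B + 1) ^ (Dp + 1) + 30 * (B + 1) ^ (Dp + 1) := by omega
      _ = _ := by ring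

end Pool.Agent.H8.DE
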