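import Pool.Agent.H8.JS.Defs

/-!
# Deterministic Turing machines and the class E
-/

set_option autoImplicit false

namespace Pool.Agent.H8.DE

open Pool.Agent.H8.JS

/-- The machine is deterministic: for each state and all symbols read there is at most one
transition. -/
def Det (M : NTM) : Prop := ∀ q a q₁ a₁ d₁ q₂ a₂ d₂,
  M.δ q a q₁ a₁ d₁ → M.δ q a q₂ a₂ d₂ → q₁ = q₂ ∧ a₁ = a₂ ∧ d₁ = d₂

/-- The languages accepted by deterministic machines which run in time `t n` on the inputs of length
`n`. -/
def DTIME (t : ℕ → ℕ) : Set (Set (List Bool)) :=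
  {L | ∃ M : NTM, Det M ∧ ∀ x, Runs M x (t x.length) ∧ (x ∈ L ↔ Acc M x)}

/-- `E`, deterministic exponential time with linear exponent. -/
def DE : Set (Set (List Bool)) := {L | ∃ c, 0 < c ∧ L ∈ DTIME (fun n => 2 ^ (c * n))}

end Pool.Agent.H8.DE
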