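import Pool.Agent.H8.DE.Defs
import Pool.Agent.H8.JS.Sys
import Pool.Agent.H8.VR.Targets
import Pool.Agent.H8.MC.Targets
import Pool.Agent.H8.DI.Defs

/-!
# The class E: targets
-/

set_option autoImplicit false

namespace Pool.Agent.H8.DE

open Pool.Agent.H69.Sp Pool.Agent.H69.VR Pool.Agent.H8.VR Pool.Agent.H8.JS Pool.Agent.H8.MC

/-! ### A: from machines with counters to Turing machines -/

/-- deterministic machines with counters -/
def DetC (M : CW) : Prop := ∀ q i z w q₁ v₁ d₁ w₁ m₁ q₂ v₂ d₂ w₂ m₂,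
  M.δ q i z w q₁ v₁ d₁ w₁ m₁ → M.δ q i z w q₂ v₂ d₂ w₂ m₂ →
    q₁ = q₂ ∧ v₁ = v₂ ∧ d₁ = d₂ ∧ w₁ = w₂ ∧ m₁ = m₂

/-- determinism of the Turing machine -/
def D_TM : Prop := ∀ (M : CW) (e : Prop), DetC M → Det (tm M e)

/-! ### B: programs with counters and a work tape -/

/-- states: counters, position of the work head, work tape -/
@[ext] structure Z0 : Type where
  n : ℕ → ℕ
  h : ℕ
  w : ℕ → Bool

/-- programs -/
inductive P0 : Type
  | nop : P0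
  | inc (j : ℕ) : P0
  | dec (j : ℕ) : P0
  | rt : P0
  | lf : P0
  | wr (b : Bool) : P0
  | seq (p q : P0) : P0
  | ifz (j : ℕ) (p q : P0) : P0
  | ifw (p q : P0) : P0
  | whn (j : ℕ) (p : P0) : P0

/-- `Ex p σ σ' t`: the program `p` leads from `σ` to `σ'` in `t` steps -/
inductive Ex : P0 → Z0 → Z0 → ℕ → Prop
  | nop (σ : Z0) : Ex .nop σ σ 1
  | inc (j : ℕ) (σ : Z0) : Ex (.inc j) σ ⟨Function.update σ.n j (σ.n j + 1), σ.h, σ.w⟩ 1
  | dec (j : ℕ) (σ : Z0) : Ex (.dec j) σ ⟨Function.update σ.n j (σ.n j - 1), σ.h, σ.w⟩ 1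
  | rt (σ : Z0) : Ex .rt σ ⟨σ.n, σ.h + 1, σ.w⟩ 1
  | lf (σ : Z0) : Ex .lf σ ⟨σ.n, σ.h - 1, σ.w⟩ 1
  | wr (b : Bool) (σ : Z0) : Ex (.wr b) σ ⟨σ.n, σ.h, Function.update σ.w σ.h b⟩ 1
  | seq (p q : P0) (σ σ' σ'' : Z0) (t t' : ℕ) (h : Ex p σ σ' t) (h' : Ex q σ' σ'' t') :
      Ex (.seq p q) σ σ'' (t + t')
  | ifzt (j : ℕ) (p q : P0) (σ σ' : Z0) (t : ℕ) (hj : σ.n j = 0) (h : Ex p σ σ' t) :
      Ex (.ifz j p q) σ σ' (t + 1)
  | ifzf (j : ℕ) (p q : P0) (σ σ' : Z0) (t : ℕ) (hj : σ.n j ≠ 0) (h : Ex q σ σ' t) :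
      Ex (.ifz j p q) σ σ' (t + 1)
  | ifwt (p q : P0) (σ σ' : Z0) (t : ℕ) (hj : σ.w σ.h = true) (h : Ex p σ σ' t) :
      Ex (.ifw p q) σ σ' (t + 1)
  | ifwf (p q : P0) (σ σ' : Z0) (t : ℕ) (hj : σ.w σ.h = false) (h : Ex q σ σ' t) :
      Ex (.ifw p q) σ σ' (t + 1)
  | whnt (j : ℕ) (p : P0) (σ σ' σ'' : Z0) (t t' : ℕ) (hj : σ.n j ≠ 0) (h : Ex p σ σ' t)
      (h' : Ex (.whn j p) σ' σ'' t') : Ex (.whn j p) σ σ'' (t + t' + 1)
  | whnf (j : ℕ) (p : P0) (σ : Z0) (hj : σ.n j = 0) : Ex (.whn j p) σ σ 1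

/-- the control states of a program -/
def Qs : P0 → Type
  | .nop => Unit
  | .inc _ => Unit
  | .dec _ => Unit
  | .rt => Unit
  | .lf => Unit
  | .wr _ => Unit
  | .seq p q => Qs p ⊕ Qs q
  | .ifz _ p q => Option (Qs p ⊕ Qs q)
  | .ifw p q => Option (Qs p ⊕ Qs q)
  | .whn _ p => Option (Qs p)

/-- the start state -/
def st : (p : P0) → Qs p
  | .nop => ()
  | .inc _ => ()
  | .dec _ => ()
  | .rt => ()
  | .lf => ()
  | .wr _ => ()
  | .seq p _ => Sum.inl (st p)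
  | .ifz _ _ _ => none
  | .ifw _ _ => none
  | .whn _ _ => none

/-- the next control state (`none`: the end of the program), the moves of the counters, the new work
symbol, the move of the work head, for the zero tests `z` and the work symbol `b` -/
def dl : (p : P0) → Qs p → (ℕ → Bool) → Bool → Option (Qs p) × (ℕ → Mv) × Bool × Mv
  | .nop, _, _, b => (none, fun _ => .S, b, .S)
  | .inc j, _, _, b => (none, fun i => if i = j then .R else .S, b, .S)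
  | .dec j, _, _, b => (none, fun i => if i = j then .L else .S, b, .S)
  | .rt, _, _, b => (none, fun _ => .S, b, .R)
  | .lf, _, _, b => (none, fun _ => .S, b, .L)
  | .wr c, _, _, _ => (none, fun _ => .S, c, .S)
  | .seq p q, .inl s, z, b =>
      (some (match (dl p s z b).1 with
        | some s' => .inl s'
        | none => .inr (st q)), (dl p s z b).2)
  | .seq _ q, .inr s, z, b => ((dl q s z b).1.map .inr, (dl q s z b).2)
  | .ifz j p q, none, z, b =>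
      (some (some (if z j then .inl (st p) else .inr (st q))), fun _ => .S, b, .S)
  | .ifz _ p _, some (.inl s), z, b => ((dl p s z b).1.map fun s' => some (.inl s'), (dl p s z b).2)
  | .ifz _ _ q, some (.inr s), z, b => ((dl q s z b).1.map fun s' => some (.inr s'), (dl q s z b).2)
  | .ifw p q, none, _, b => (some (some (if b then .inl (st p) else .inr (st q))), fun _ => .S, b, .S)
  | .ifw p _, some (.inl s), z, b => ((dl p s z b).1.map fun s' => some (.inl s'), (dl p s z b).2)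
  | .ifw _ q, some (.inr s), z, b => ((dl q s z b).1.map fun s' => some (.inr s'), (dl q s z b).2)
  | .whn j p, none, z, b => (if z j then none else some (some (st p)), fun _ => .S, b, .S)
  | .whn _ p, some s, z, b => (some (dl p s z b).1, (dl p s z b).2)

/-- one step of the control of `p` -/
def nx (p : P0) (s : Qs p) (σ : Z0) : Option (Qs p) × Z0 :=
  ((dl p s (fun j => decide (σ.n j = 0)) (σ.w σ.h)).1,
    ⟨fun j => ((dl p s (fun j => decide (σ.n j = 0)) (σ.w σ.h)).2.1 j).go (σ.n j),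
      ((dl p s (fun j => decide (σ.n j = 0)) (σ.w σ.h)).2.2.2).go σ.h,
      Function.update σ.w σ.h (dl p s (fun j => decide (σ.n j = 0)) (σ.w σ.h)).2.2.1⟩)

/-- the control reaches the end of the program from the state `s` in `t` steps -/
inductive Rch (p : P0) : Qs p → Z0 → ℕ → Z0 → Prop
  | fin (s : Qs p) (σ σ' : Z0) (h : nx p s σ = (none, σ')) : Rch p s σ 1 σ'
  | stp (s s' : Qs p) (σ σ' σ'' : Z0) (t : ℕ) (h : nx p s σ = (some s', σ'))
      (h' : Rch p s' σ' t σ'') : Rch p s σ (t + 1) σ''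

/-- the control of a program is correct -/
def D_CM : Prop := (∀ p, Finite (Qs p)) ∧ ∀ p σ σ' t, Ex p σ σ' t → Rch p (st p) σ t σ'

/-- a bound for the counters of a program, at least three -/
def vb : P0 → ℕ
  | .nop => 3
  | .inc j => max 3 (j + 1)
  | .dec j => max 3 (j + 1)
  | .rt => 3
  | .lf => 3
  | .wr _ => 3
  | .seq p q => max (vb p) (vb q)
  | .ifz j p q => max (j + 1) (max (vb p) (vb q))
  | .ifw p q => max (vb p) (vb q)
  | .whn j p => max (j + 1) (vb p)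

/-- the state before a program: the counter `0` is `n` -/
def z0 (n : ℕ) : Z0 := ⟨fun j => if j = 0 then n else 0, 0, fun _ => false⟩

/-- a machine with counters for each program: it computes the number of the input, runs the program,
and accepts if the counter `1` is not zero -/
def D_MC : Prop := ∀ p : P0, ∃ M : CW, DetC M ∧ ∀ (x : List Bool) (σ : Z0) (t : ℕ),
  Rch p (st p) (z0 (num x)) t σ →
    (Ac (CStep M x) (fun c => c.q = M.acc) (cinit M) ↔ σ.n 1 ≠ 0) ∧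
      Ru (CStep M x) (cinit M) (8 * num x + t + 8)

/-- from programs to `E` -/
def D_P0 : Prop := ∀ (p : P0) (C D : ℕ) (S : Set ℕ),
  (∀ n, 0 < n → ∃ σ t, Ex p (z0 n) σ t ∧ t ≤ C * (n + 1) ^ D ∧ (σ.n 1 ≠ 0 ↔ n ∈ S)) →
    lang S ∈ DE

/-! ### C: programs with bounded variables and a table -/

/-- states: variables and table -/
@[ext] structure Z1 : Type where
  v : ℕ → ℕ
  tb : ℕ → Bool

/-- programs -/
inductive P1 : Type
  | nop : P1
  | zer (i : ℕ) : P1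
  | suc (i : ℕ) : P1
  | cpy (i j : ℕ) : P1
  | put (i : ℕ) : P1
  | get (i : ℕ) (p q : P1) : P1
  | ife (i j : ℕ) (p q : P1) : P1
  | seq (p q : P1) : P1
  | lp (i : ℕ) (p : P1) : P1

/-- The result of a program; `B` is the bound for the variables. `suc` increases a variable if it is
smaller than `B`, `cpy i j` copies the variable `j` to `i`, `put` and `get` write `true` and read in the
table, `ife` compares two variables, `lp i p` repeats `p`, the number of times is the value of `i`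
before the loop. -/
def run (B : ℕ) : P1 → Z1 → Z1
  | .nop, σ => σ
  | .zer i, σ => ⟨Function.update σ.v i 0, σ.tb⟩
  | .suc i, σ => ⟨Function.update σ.v i (min (σ.v i + 1) B), σ.tb⟩
  | .cpy i j, σ => ⟨Function.update σ.v i (σ.v j), σ.tb⟩
  | .put i, σ => ⟨σ.v, Function.update σ.tb (σ.v i) true⟩
  | .get i p q, σ => if σ.tb (σ.v i) = true then run B p σ else run B q σ
  | .ife i j p q, σ => if σ.v i = σ.v j then run B p σ else run B q σ
  | .seq p q, σ => run B q (run B p σ)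
  | .lp i p, σ => (run B p)^[σ.v i] σ

/-- the variables of the program are smaller than `k` -/
def P1.Below (k : ℕ) : P1 → Prop
  | .nop => True
  | .zer i => i < k
  | .suc i => i < k
  | .cpy i j => i < k ∧ j < k
  | .put i => i < k
  | .get i p q => i < k ∧ p.Below k ∧ q.Below k
  | .ife i j p q => i < k ∧ j < k ∧ p.Below k ∧ q.Below k
  | .seq p q => p.Below k ∧ q.Below k
  | .lp i p => i < k ∧ p.Below k

/-- macros: set to zero; copy; bounded successor; comparison; reading and writing in the table -/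
def D_MA : Prop :=
  (∀ i, ∃ q, ∀ σ : Z0, ∃ T ≤ 4 * σ.n i + 4, Ex q σ ⟨Function.update σ.n i 0, σ.h, σ.w⟩ T) ∧
  (∀ i j t, i ≠ j → i ≠ t → j ≠ t → ∃ q, ∀ σ : Z0, σ.n t = 0 →
    ∃ T ≤ 20 * (σ.n i + σ.n j + 1), Ex q σ ⟨Function.update σ.n i (σ.n j), σ.h, σ.w⟩ T) ∧
  (∀ i b t₁ t₂ t₃, i ≠ b → i ≠ t₁ → i ≠ t₂ → i ≠ t₃ → b ≠ t₁ → b ≠ t₂ → b ≠ t₃ → t₁ ≠ t₂ →
    t₁ ≠ t₃ → t₂ ≠ t₃ → ∃ q, ∀ σ : Z0, σ.n t₁ = 0 → σ.n t₂ = 0 → σ.n t₃ = 0 → σ.n i ≤ σ.n b →
      ∃ T ≤ 200 * (σ.n b + 1),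
        Ex q σ ⟨Function.update σ.n i (min (σ.n i + 1) (σ.n b)), σ.h, σ.w⟩ T) ∧
  (∀ i j t₁ t₂ t₃, i ≠ j → i ≠ t₁ → i ≠ t₂ → i ≠ t₃ → j ≠ t₁ → j ≠ t₂ → j ≠ t₃ → t₁ ≠ t₂ →
    t₁ ≠ t₃ → t₂ ≠ t₃ → ∀ p q, ∃ r, ∀ σ : Z0, σ.n t₁ = 0 → σ.n t₂ = 0 → σ.n t₃ = 0 →
      ∀ (σ' : Z0) (T : ℕ), (if σ.n i = σ.n j then Ex p σ σ' T else Ex q σ σ' T) →
        ∃ T' ≤ T + 200 * (σ.n i + σ.n j + 1), Ex r σ σ' T') ∧
  (∀ i t₁ t₂, i ≠ t₁ → i ≠ t₂ → t₁ ≠ t₂ → ∀ p q, ∃ r, ∀ σ : Z0, σ.h = 0 → σ.n t₁ = 0 →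
    σ.n t₂ = 0 → ∀ (σ' : Z0) (T : ℕ), (if σ.w (σ.n i) = true then Ex p σ σ' T else Ex q σ σ' T) →
      ∃ T' ≤ T + 200 * (σ.n i + 1), Ex r σ σ' T') ∧
  ∀ i t₁ t₂, i ≠ t₁ → i ≠ t₂ → t₁ ≠ t₂ → ∃ q, ∀ σ : Z0, σ.h = 0 → σ.n t₁ = 0 → σ.n t₂ = 0 →
    ∃ T ≤ 200 * (σ.n i + 1), Ex q σ ⟨σ.n, σ.h, Function.update σ.w (σ.n i) true⟩ T

/-- the counters for a state with bound `B`: variables `i < k`, the bound at `k`, three auxiliary
counters, the counters `L` of the loops -/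
def en (k B : ℕ) (L : ℕ → ℕ) (σ : Z1) : Z0 :=
  ⟨fun j => if j < k then σ.v j else if j = k then B else if j < k + 4 then 0 else L (j - (k + 4)),
    0, σ.tb⟩

/-- compilation -/
def D_C1 : Prop := ∀ (k : ℕ) (p : P1), p.Below k → ∀ d, ∃ (q : P0) (C D : ℕ),
  ∀ (B : ℕ) (L : ℕ → ℕ) (σ : Z1), (∀ i < k, σ.v i ≤ B) → (∀ j, d ≤ j → L j = 0) →
    (∀ i < k, (run B p σ).v i ≤ B) ∧
      ∃ t ≤ C * (B + 1) ^ D, Ex q (en k B L σ) (en k B L (run B p σ)) t

/-- the initial state -/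
def i1 (n : ℕ) : Z1 := ⟨fun j => if j = 0 then n else 0, fun _ => false⟩

/-- the computation of the bound -/
def D_PW : Prop := ∀ k K : ℕ, 0 < k → ∃ (q : P0) (C D : ℕ), ∀ n,
  ∃ t ≤ C * (n + 1) ^ D, Ex q (z0 n) (en k ((n + 1) ^ K) (fun _ => 0) (i1 n)) t

/-- from programs to `E` -/
def D_E1 : Prop := ∀ (p : P1) (K : ℕ) (S : Set ℕ), 0 < K →
  (∀ n, 0 < n → ((run ((n + 1) ^ K) p (i1 n)).v 1 ≠ 0 ↔ n ∈ S)) → lang S ∈ DE

/-! ### D: evaluation of formulas and inductive definitions -/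

/-- `p` computes `r` in the variable `k` and changes neither the variables below `k` nor the table -/
def Cal (k : ℕ) (p : P1) (B : ℕ) (σ : Z1) (r : ℕ) : Prop :=
  (run B p σ).tb = σ.tb ∧ (∀ i < k, (run B p σ).v i = σ.v i) ∧ (run B p σ).v k = r

/-- arithmetic -/
def D_AR : Prop := ∀ k i j : ℕ, i < k → j < k →
  (∃ p, ∀ B σ, σ.v i + σ.v j ≤ B → Cal k p B σ (σ.v i + σ.v j)) ∧
  (∃ p, ∀ B σ, σ.v i * σ.v j ≤ B → Cal k p B σ (σ.v i * σ.v j)) ∧
  ∃ p, ∀ B σ, 1 ≤ B → σ.v i ≤ B → σ.v j ≤ B → Cal k p B σ (if σ.v i < σ.v j then 1 else 0)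

/-- the position of an entry of the table: relation `i < R`, arguments `l`, universe `{0..N-1}` -/
def cd (R N i : ℕ) (l : List ℕ) : ℕ := i + R * l.foldr (fun x c => x + N * c) 0

/-- positions -/
def D_CI : Prop := (∀ (R N i : ℕ) (l : List ℕ), i < R → (∀ x ∈ l, x < N) →
    cd R N i l < R * N ^ l.length) ∧
  ∀ (R N i i' : ℕ) (l l' : List ℕ), i < R → i' < R → (∀ x ∈ l, x < N) → (∀ x ∈ l', x < N) →
    cd R N i l = cd R N i' l' → (i = i' → l.length = l'.length) → i = i' ∧ l = l'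

/-- the computation of the position -/
def D_CD : Prop := ∀ (R i : ℕ) (xs : List ℕ) (m k : ℕ), i < R → (∀ x ∈ xs, x < k) → m < k →
  ∃ p, ∀ B σ, (∀ x ∈ xs, σ.v x < σ.v m) → R * (σ.v m) ^ xs.length ≤ B →
    Cal k p B σ (cd R (σ.v m) i (xs.map σ.v))

/-- the relations given by the table; `ar i` is the number of the arguments of the relation `i` -/
def ET (R : ℕ) (ar : ℕ → ℕ) (N : ℕ) (tb : ℕ → Bool) (i : ℕ) (l : List ℕ) : Prop :=
  i < R ∧ l.length = ar i ∧ (∀ x ∈ l, x < N) ∧ tb (cd R N i l) = true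

/-- satisfaction over the universe `{0..N-1}` with the relations `E` -/
def St1 (N : ℕ) (E : ℕ → List ℕ → Prop) (φ : Fm) (v : ℕ → ℕ) : Prop :=
  Sat (· < N) (J E fun _ _ => False) φ v

/-- `B` is large enough -/
def Big (R : ℕ) (ar : ℕ → ℕ) (N B : ℕ) : Prop :=
  2 * N ≤ B ∧ N ^ 2 ≤ B ∧ ∀ i < R, R * N ^ ar i ≤ B

/-- the evaluation of formulas; the variable `m` is the size of the universe -/
def D_EV : Prop := ∀ (R : ℕ) (ar : ℕ → ℕ) (φ : Fm) (m : ℕ), φ.bd ≤ m → ∀ k, m < k →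
  ∃ p, ∀ B N σ, (∀ x < m, σ.v x < N) → σ.v m = N → 0 < N → Big R ar N B →
    (open Classical in Cal k p B σ (if St1 N (ET R ar N σ.tb) φ σ.v then 1 else 0))

/-- loops over tuples: `q` is executed for all values below `N` of the variables `1, …, a` -/
def D_TL : Prop := ∀ (a m : ℕ) (q : P1), a < m → ∃ p : P1,
  ∀ (B N n : ℕ) (G : List ℕ → (ℕ → Bool) → ℕ → Bool), N ≤ B →
    (∀ σ : Z1, σ.v 0 = n → σ.v m = N → (∀ x, 1 ≤ x → x ≤ a → σ.v x < N) →
      (run B q σ).tb = G ((List.range a).map fun j => σ.v (j + 1)) σ.tb ∧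
        (∀ i ≤ a, (run B q σ).v i = σ.v i) ∧ (run B q σ).v m = N) →
    ∃ ls : List (List ℕ), (∀ l, l ∈ ls ↔ l.length = a ∧ ∀ x ∈ l, x < N) ∧
      ∀ σ : Z1, σ.v 0 = n → σ.v m = N →
        (run B p σ).tb = ls.foldl (fun tb l => G l tb) σ.tb ∧ (run B p σ).v 0 = n ∧
          (run B p σ).v m = N

/-- the assignment for a rule: the variable `0` is `n`, the variables `1, 2, …` are the arguments -/
def vl (l : List ℕ) (n : ℕ) (x : ℕ) : ℕ := if x = 0 then n else l.getD (x - 1) 0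

open Classical in
/-- an entry is added if the rule allows it -/
noncomputable def ad (R : ℕ) (ar : ℕ → ℕ) (Φ : ℕ → Fm) (N n : ℕ) (tb : ℕ → Bool) (x : ℕ × List ℕ) :
    ℕ → Bool :=
  if St1 N (ET R ar N tb) (Φ x.1) (vl x.2 n) then Function.update tb (cd R N x.1 x.2) true else tb

/-- the list of all possible entries -/
def Lst (R : ℕ) (ar : ℕ → ℕ) (N : ℕ) (ls : List (ℕ × List ℕ)) : Prop :=
  ∀ x, x ∈ ls ↔ x.1 < R ∧ x.2.length = ar x.1 ∧ ∀ y ∈ x.2, y < N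

/-- one pass: all rules are applied -/
def D_PS : Prop := ∀ (R : ℕ) (ar : ℕ → ℕ) (Φ : ℕ → Fm) (m : ℕ), 0 < m →
  (∀ i < R, (Φ i).bd ≤ m ∧ ar i < m) → ∃ p : P1, ∀ B N n : ℕ, n < N → Big R ar N B →
    ∃ ls, Lst R ar N ls ∧ ∀ σ : Z1, σ.v 0 = n → σ.v m = N →
      (run B p σ).tb = ls.foldl (ad R ar Φ N n) σ.tb ∧ (run B p σ).v 0 = n ∧ (run B p σ).v m = N

/-- after sufficiently many passes the table is closed, and it is sound -/
def D_FX : Prop := ∀ (R : ℕ) (ar : ℕ → ℕ) (Φ : ℕ → Fm) (N n : ℕ) (ls : List (ℕ × List ℕ))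
  (Es : ℕ → List ℕ → Prop), 0 < N → Lst R ar N ls →
  (∀ E : ℕ → List ℕ → Prop, (∀ i l, E i l → Es i l) → ∀ i < R, ∀ l : List ℕ, l.length = ar i →
    (∀ x ∈ l, x < N) → St1 N E (Φ i) (vl l n) → Es i l) →
  ∀ T, R * N ^ (∑ i ∈ Finset.range R, ar i) < T →
    (∀ i l, ET R ar N ((fun tb => ls.foldl (ad R ar Φ N n) tb)^[T] fun _ => false) i l → Es i l) ∧
    ∀ i < R, ∀ l : List ℕ, l.length = ar i → (∀ x ∈ l, x < N) →
      St1 N (ET R ar N ((fun tb => ls.foldl (ad R ar Φ N n) tb)^[T] fun _ => false)) (Φ i) (vl l n) →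
        ET R ar N ((fun tb => ls.foldl (ad R ar Φ N n) tb)^[T] fun _ => false) i l

/-- sets given by inductive definitions are in `E` -/
def D_DT : Prop := ∀ (R : ℕ) (ar : ℕ → ℕ) (Φ : ℕ → Fm) (Ψ : Fm) (S : Set ℕ),
  (∀ n, 0 < n → ∃ Es : ℕ → List ℕ → Prop,
    (∀ E : ℕ → List ℕ → Prop, (∀ i l, E i l → Es i l) → ∀ i < R, ∀ l : List ℕ, l.length = ar i →
      (∀ x ∈ l, x < n + 1) → St1 (n + 1) E (Φ i) (vl l n) → Es i l) ∧
    ∀ E : ℕ → List ℕ → Prop, (∀ i l, E i l → Es i l) →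
      (∀ i < R, ∀ l : List ℕ, l.length = ar i → (∀ x ∈ l, x < n + 1) →
        St1 (n + 1) E (Φ i) (vl l n) → E i l) → (St1 (n + 1) E Ψ (vl [] n) ↔ n ∈ S)) →
  lang S ∈ DE

/-! ### E: composition systems and classes of graphs -/

/-- the rules of a composition system are definable -/
def D_RU : Prop := ∀ (N Q L T O C : Type) [Finite N] [Finite O] [Fintype Q] [Fintype L] [Fintype T]
  [Fintype C] (S : Sg N Q L T O) (K : Cp C) (iN : N → ℕ) (iO : O → ℕ) (k : ℕ)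
  (e : Enum (Ix Q L T C) k), (∀ x u, FD (fun _ _ v => K.cp (v x) = u)) →
  (∀ s, FD (fun M E v => Ptc S K s (fun σ => v (1 + e.ix σ)) ∨ ∃ o, S.u o = s ∧
    ∃ a b d : Ix Q L T C → ℕ, Lt M a ∧ Lt M b ∧ Lt M d ∧ (∀ σ, b σ = 0) ∧ JE iO e E o a b d ∧
      Fn S o a d (fun σ => v (1 + e.ix σ)))) ∧
  ∀ o, FD (fun M E v =>
    ((∀ σ, v (1 + (2 * k + e.ix σ)) = 0) ∧ FE iN e E (S.s o) (fun σ => v (1 + e.ix σ)) ∧
      FE iN e E (S.t o) (fun σ => v (1 + (k + e.ix σ))) ∧ 0 < tot (fun σ => v (1 + e.ix σ)) ∧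
      0 < tot (fun σ => v (1 + (k + e.ix σ))) ∧
      tot (fun σ => v (1 + e.ix σ)) + tot (fun σ => v (1 + (k + e.ix σ))) ≤ v 0) ∨
    ∃ τ, ∃ (m : Ix Q L T C × T → ℕ) (a b d : Ix Q L T C → ℕ), Lt M m ∧ Lt M a ∧ Lt M b ∧ Lt M d ∧
      JE iO e E o a b d ∧ Step S K o τ m a b d (fun σ => v (1 + e.ix σ))
        (fun σ => v (1 + (k + e.ix σ))) (fun σ => v (1 + (2 * k + e.ix σ))))

/-- composition systems -/
def D_SY : Prop := ∀ (N Q L T O C : Type) [Finite N] [Finite O] [Fintype Q] [Fintype L] [Fintype T]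
  [Fintype C] [Nonempty T] (S : Sg N Q L T O) (K : Cp C) (s₀ : N) (Ok : St L T C → Prop),
  (∀ x u, FD (fun _ _ v => K.cp (v x) = u)) → (∀ o, S.D o = {n | 0 < n}) →
    lang {n | 0 < n ∧ SysMem S K s₀ Ok n} ∈ DE

/-- grammars -/
def D_GR : Prop := ∀ (N Q : Type) [Finite N] [Finite Q] (G : Gram N Q),
  (∀ o ∈ G.ops, o.D = {n | 0 < n}) → ∀ (m : ℕ) (s₀ : N) (Ψ : MS) (φ : C2), Ψ.Below m →
    lang (specM G m s₀ Ψ φ) ∈ DE

/-- definable classes of bounded NLC-width -/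
def D_CL : Prop := ∀ (C : GClass) (k : ℕ), Definable C →
  (∀ n (G : SimpleGraph (Fin n)), 0 < n → C n G → ∃ c, NLC k 1 (fun _ => G.Adj) Set.univ c) →
  ∀ (Ψ : MS) (φ : C2), BinZero Ψ → lang (specC C Ψ φ) ∈ DE

/-- one relation: linear orders, forests, equivalence relations -/
def D_SK : Prop := ∀ (l : ℕ) (τ : ℕ → Pool.Agent.H8.DI.Kd) (φ : Pool.Agent.H16.TO.C2), l ≤ 1 →
  lang (Pool.Agent.H8.DI.specK l τ φ) ∈ DE

end Pool.Agent.H8.DE
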